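import Mathlib

/-!
The lamplighter group, realised inside a product of finite permutation groups, has exponential
growth and permutation approximations of polynomial size.
-/

set_option autoImplicit false

namespace Pool.Agent.H499Z.Lamp

open Polynomial

abbrev K (m : ℕ) : Type := GaloisField 2 (m + 1)

abbrev Pt (m : ℕ) : Type := (K m)ˣ × K m

abbrev Amb : Type := ∀ m : ℕ, Equiv.Perm (Pt m)

noncomputable def genAt (e : ZMod 2) (m : ℕ) : Equiv.Perm (Pt m) where
  toFun p := (p.1, (p.1 : K m) * p.2 + algebraMap (ZMod 2) (K m) e)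
  invFun p := (p.1, ((p.1⁻¹ : (K m)ˣ) : K m) * (p.2 - algebraMap (ZMod 2) (K m) e))
  left_inv p := by
    ext
    · rfl
    · simp
  right_inv p := by
    ext
    · rfl
    · simp

noncomputable def gen (e : ZMod 2) : Amb := fun m => genAt e m

theorem normal_form (l : List Amb) (hl : ∀ x ∈ l, ∃ e, x = gen e ∨ x = (gen e)⁻¹) :
    ∃ j : ℕ, j ≤ 2 * l.length ∧ ∃ p : (ZMod 2)[X], p.natDegree ≤ 2 * l.length ∧
      ∀ (m : ℕ) (z : Pt m), (l.prod m z).1 = z.1 ∧
        (z.1 : K m) ^ l.length * (l.prod m z).2 = (z.1 : K m) ^ j * z.2 + aeval (z.1 : K m) p := by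
  induction l with
  | nil => exact ⟨0, le_rfl, 0, by simp, fun m z => by simp⟩
  | cons s l ih =>
    obtain ⟨j, hj, p, hp, h⟩ := ih (fun x hx => hl x (List.mem_cons_of_mem _ hx))
    obtain ⟨e, he | he⟩ := hl s List.mem_cons_self
    · refine ⟨j + 2, by simp; omega, X ^ 2 * p + C e * X ^ (l.length + 1), ?_, fun m z => ?_⟩
      · refine (natDegree_add_le _ _).trans (max_le ?_ ?_)
        · refine natDegree_mul_le.trans ?_
          simp; omega
        · refine (natDegree_C_mul_X_pow_le _ _).trans ?_
          simp only [List.length_cons]; omega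
      · obtain ⟨h1, h2⟩ := h m z
        have hs : (s :: l).prod m z = genAt e m (l.prod m z) := by
          rw [List.prod_cons, he]; rfl
        rw [hs]
        refine ⟨h1, ?_⟩
        simp only [genAt, Equiv.coe_fn_mk, List.length_cons, map_add, map_mul, map_pow, aeval_X,
          aeval_C, h1]
        linear_combination ((z.1 : K m)) ^ 2 * h2
    · refine ⟨j, by simp; omega, p - C e * X ^ l.length, ?_, fun m z => ?_⟩
      · refine (natDegree_sub_le _ _).trans (max_le ?_ ?_)
        · simp; omega
        · refine (natDegree_C_mul_X_pow_le _ _).trans ?_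
          simp; omega
      · obtain ⟨h1, h2⟩ := h m z
        have hs : (s :: l).prod m z = (genAt e m).symm (l.prod m z) := by
          rw [List.prod_cons, he]; rfl
        rw [hs]
        refine ⟨h1, ?_⟩
        simp only [genAt, Equiv.coe_fn_symm_mk, List.length_cons, map_sub, map_mul, map_pow,
          aeval_X, aeval_C, h1]
        have hu : (z.1 : K m) * ((z.1⁻¹ : (K m)ˣ) : K m) = 1 := by simp
        linear_combination h2 + (z.1 : K m) ^ l.length *
          ((l.prod m z).2 - algebraMap (ZMod 2) (K m) e) * hu

open Classical in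
theorem count_le {F : Type} [Field F] [Fintype F] (r : F[X]) (hr : r ≠ 0) (D : ℕ)
    (hD : r.natDegree ≤ D) (c : Fˣ → F) :
    (Finset.univ.filter (fun z : Fˣ × F => r.eval (z.1 : F) = 0 ∨ z.2 = c z.1)).card
      ≤ (D + 1) * Fintype.card F := by
  have h1 : (Finset.univ.filter (fun z : Fˣ × F => r.eval (z.1 : F) = 0)).card
      ≤ D * Fintype.card F := by
    have : (Finset.univ.filter (fun z : Fˣ × F => r.eval (z.1 : F) = 0)).card
        ≤ (r.roots.toFinset ×ˢ (Finset.univ : Finset F)).card := by
      refine Finset.card_le_card_of_injOn (fun z => ((z.1 : F), z.2)) ?_ ?_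
      · intro z hz
        simp only [Finset.coe_filter, Finset.mem_univ, true_and, Set.mem_ofPred_eq] at hz
        simp [hr, hz]
      · intro z _ w _ h
        simp only [Prod.mk.injEq] at h
        exact Prod.ext (Units.ext h.1) h.2
    refine this.trans ?_
    rw [Finset.card_product, Finset.card_univ]
    exact Nat.mul_le_mul_right _ ((Multiset.toFinset_card_le _).trans ((card_roots' r).trans hD))
  have h2 : (Finset.univ.filter (fun z : Fˣ × F => z.2 = c z.1)).card ≤ Fintype.card F := by
    rw [← Finset.card_univ]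
    refine Finset.card_le_card_of_injOn (fun z => (z.1 : F)) (by simp) ?_
    intro z hz w hw h
    simp only [Finset.coe_filter, Finset.mem_univ, true_and, Set.mem_ofPred_eq] at hz hw
    have h' : z.1 = w.1 := Units.ext h
    exact Prod.ext h' (by rw [hz, hw, h'])
  rw [Finset.filter_or]
  refine (Finset.card_union_le _ _).trans ?_
  rw [add_mul, one_mul]
  exact add_le_add h1 h2

noncomputable instance (m : ℕ) : Fintype (K m) := Fintype.ofFinite _

theorem card_K (m : ℕ) : Fintype.card (K m) = 2 ^ (m + 1) := by
  rw [← Nat.card_eq_fintype_card]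
  exact GaloisField.card 2 (m + 1) (by omega)

open Classical in
theorem fixed_le (l : List Amb) (hl : ∀ x ∈ l, ∃ e, x = gen e ∨ x = (gen e)⁻¹)
    (hne : l.prod ≠ 1) (m : ℕ) :
    (Finset.univ.filter (fun z : Pt m => l.prod m z = z)).card
      ≤ (2 * l.length + 1) * 2 ^ (m + 1) := by
  obtain ⟨j, hj, p, hp, h⟩ := normal_form l hl
  rw [← card_K]
  by_cases hjn : j = l.length
  · have hp0 : p ≠ 0 := by
      rintro rfl
      apply hne
      funext m'
      ext z
      · exact congrArg Units.val (h m' z).1
      · have := (h m' z).2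
        rw [hjn, map_zero, add_zero] at this
        exact mul_left_cancel₀ (pow_ne_zero _ z.1.ne_zero) this
    refine le_trans (Finset.card_le_card ?_)
      (count_le (p.map (algebraMap (ZMod 2) (K m))) (Polynomial.map_ne_zero hp0) (2 * l.length)
        (by rw [natDegree_map]; exact hp) (fun _ => 0))
    intro z hz
    simp only [Finset.mem_filter, Finset.mem_univ, true_and] at hz ⊢
    left
    have := (h m z).2
    rw [hz, hjn] at this
    rw [eval_map_algebraMap]
    linear_combination -this
  · have hr : (X ^ l.length - X ^ j : (K m)[X]) ≠ 0 := by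
      intro h0
      have := congrArg natDegree (sub_eq_zero.mp h0)
      simp at this
      exact hjn this.symm
    refine le_trans (Finset.card_le_card ?_)
      (count_le (X ^ l.length - X ^ j : (K m)[X]) hr (2 * l.length)
        ((natDegree_sub_le _ _).trans (by simp; omega))
        (fun t => aeval (t : K m) p / ((t : K m) ^ l.length - (t : K m) ^ j)))
    intro z hz
    simp only [Finset.mem_filter, Finset.mem_univ, true_and] at hz ⊢
    by_cases h0 : (z.1 : K m) ^ l.length - (z.1 : K m) ^ j = 0
    · left; simpa using h0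
    · right
      have := (h m z).2
      rw [hz] at this
      rw [eq_div_iff h0]
      linear_combination this

noncomputable def poly : List (ZMod 2) → (ZMod 2)[X]
  | [] => 0
  | e :: l => C e + X * poly l

theorem poly_natDegree (l : List (ZMod 2)) : (poly l).natDegree ≤ l.length := by
  induction l with
  | nil => simp [poly]
  | cons e l ih =>
    refine (natDegree_add_le _ _).trans (max_le (by simp) ?_)
    refine natDegree_mul_le.trans ?_
    simp; omega

theorem poly_inj (l l' : List (ZMod 2)) (hl : l.length = l'.length) (h : poly l = poly l') :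
    l = l' := by
  induction l generalizing l' with
  | nil => exact (List.length_eq_zero_iff.mp hl.symm).symm
  | cons e l ih =>
    cases l' with
    | nil => simp at hl
    | cons e' l' =>
      simp only [poly] at h
      have he : e = e' := by simpa using congrArg (fun q => q.coeff 0) h
      subst he
      have h2 : poly l = poly l' := mul_left_cancel₀ X_ne_zero (add_left_cancel h)
      rw [ih l' (by simpa using hl) h2]

theorem word_apply (l : List (ZMod 2)) (m : ℕ) (t : (K m)ˣ) :
    (l.map gen).prod m (t, 0) = (t, aeval (t : K m) (poly l)) := by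
  induction l with
  | nil => simp [poly]
  | cons e l ih =>
    have hs : ((e :: l).map gen).prod m (t, 0) = genAt e m ((l.map gen).prod m (t, 0)) := by
      rw [List.map_cons, List.prod_cons]; rfl
    rw [hs, ih]
    simp [genAt, poly, add_comm]

theorem word_inj (l l' : List (ZMod 2)) (hl : l.length = l'.length)
    (h : (l.map gen).prod = (l'.map gen).prod) : l = l' := by
  classical
  apply poly_inj l l' hl
  by_contra hne
  set m := l.length + 1 with hm
  have hr : (poly l - poly l').map (algebraMap (ZMod 2) (K m)) ≠ 0 :=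
    Polynomial.map_ne_zero (sub_ne_zero.mpr hne)
  have hc := count_le _ hr l.length (by
    rw [natDegree_map]
    exact (natDegree_sub_le _ _).trans (max_le (poly_natDegree l) (hl ▸ poly_natDegree l')))
    (fun _ => 0)
  rw [Finset.filter_true_of_mem, Finset.card_univ, Fintype.card_prod, Fintype.card_units,
    card_K] at hc
  · have h1 := Nat.le_of_mul_le_mul_right hc (by positivity)
    have h2 : m + 1 < 2 ^ (m + 1) := Nat.lt_two_pow_self
    omega
  · intro z _
    left
    have h1 := word_apply l m z.1
    have h2 := word_apply l' m z.1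
    rw [h, h2] at h1
    rw [eval_map_algebraMap, map_sub]
    simp only [Prod.mk.injEq, true_and] at h1
    rw [h1, sub_self]

/-- The lamplighter group. -/
abbrev G : Type := Subgroup.closure ({gen 0, gen 1} : Set Amb)

noncomputable def ga (e : ZMod 2) : G :=
  ⟨gen e, Subgroup.subset_closure (by
    fin_cases e
    · left; rfl
    · right; rfl)⟩

open Classical in
noncomputable def S : Finset G := {ga 0, ga 1}

theorem mem_S (x : G) : x ∈ S ↔ ∃ e, x = ga e := by
  classical
  simp only [S, Finset.mem_insert, Finset.mem_singleton]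
  constructor
  · rintro (h | h)
    · exact ⟨0, h⟩
    · exact ⟨1, h⟩
  · rintro ⟨e, h⟩
    fin_cases e
    · left; exact h
    · right; exact h

theorem closure_S : Subgroup.closure (S : Set G) = ⊤ := by
  rw [← Subgroup.closure_closure_coe_preimage (k := ({gen 0, gen 1} : Set Amb))]
  congr 1
  ext x
  rw [Finset.mem_coe, mem_S]
  constructor
  · rintro ⟨e, rfl⟩
    fin_cases e
    · left; rfl
    · right; rfl
  · rintro (h | h)
    · exact ⟨0, Subtype.ext h⟩
    · exact ⟨1, Subtype.ext h⟩

def InBall (n : ℕ) (g : G) : Prop :=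
  ∃ l : List G, l.length ≤ n ∧ (∀ x ∈ l, x ∈ S ∨ x⁻¹ ∈ S) ∧ l.prod = g

open Classical in
theorem card_Pt (m : ℕ) : Fintype.card (Pt m) = (2 ^ (m + 1) - 1) * 2 ^ (m + 1) := by
  rw [Fintype.card_prod, Fintype.card_units, card_K]

theorem approx (N m : ℕ) (hm : N * (2 * N + 1) + 1 ≤ 2 ^ (m + 1)) :
    ∃ d : ℕ, 0 < d ∧ d ≤ 4 ^ (m + 1) ∧ ∃ φ : G → Equiv.Perm (Fin d),
      φ 1 = 1 ∧
      (∀ g h : G, InBall N g → InBall N h →
        ((Finset.univ.filter (fun i : Fin d => φ (g * h) i ≠ (φ g * φ h) i)).card : ℝ)
            / (d : ℝ) ≤ 1 / (N : ℝ)) ∧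
      (∀ g : G, InBall N g → g ≠ 1 →
        1 - 1 / (N : ℝ) ≤
          ((Finset.univ.filter (fun i : Fin d => φ g i ≠ i)).card : ℝ) / (d : ℝ)) := by
  classical
  let e : Pt m ≃ Fin (Fintype.card (Pt m)) := Fintype.equivFin _
  have hd : 0 < Fintype.card (Pt m) := Fintype.card_pos
  refine ⟨Fintype.card (Pt m), hd, ?_, fun g => e.permCongr (g.1 m), ?_, ?_, ?_⟩
  · rw [card_Pt, show (4 : ℕ) = 2 * 2 by norm_num, mul_pow]
    exact Nat.mul_le_mul_right _ (Nat.sub_le _ _)
  · ext i
    simp
  · intro g h _ _
    rw [Finset.filter_false_of_mem]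
    · simp
    · intro i _
      simp
  · rintro g ⟨l, hl, hS, rfl⟩ hne
    have hprod : (l.map Subtype.val).prod = (l.prod : G).1 := by
      exact (map_list_prod (Subgroup.subtype _) l).symm
    have hfix := fixed_le (l.map Subtype.val) (by
      intro x hx
      obtain ⟨y, hy, rfl⟩ := List.mem_map.mp hx
      rcases hS y hy with h | h
      · obtain ⟨e', he'⟩ := (mem_S _).mp h
        exact ⟨e', Or.inl (by rw [he']; rfl)⟩
      · obtain ⟨e', he'⟩ := (mem_S _).mp h
        refine ⟨e', Or.inr ?_⟩
        rw [inv_eq_iff_eq_inv] at he'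
        rw [he']; rfl) (by
      rw [hprod]
      intro h1
      exact hne (Subtype.ext h1)) m
    rw [hprod, List.length_map] at hfix
    have hN : 0 < N := by
      rcases Nat.eq_zero_or_pos N with h0 | h0
      · subst h0
        have : l = [] := List.length_eq_zero_iff.mp (by omega)
        subst this
        simp at hne
      · exact h0
    have hcard : (Finset.univ.filter (fun i : Fin (Fintype.card (Pt m)) =>
        e.permCongr ((l.prod : G).1 m) i ≠ i)).card +
        (Finset.univ.filter (fun z : Pt m => (l.prod : G).1 m z = z)).card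
        = Fintype.card (Pt m) := by
      have h1 : (Finset.univ.filter (fun i : Fin (Fintype.card (Pt m)) =>
          e.permCongr ((l.prod : G).1 m) i ≠ i)).card =
          (Finset.univ.filter (fun z : Pt m => ¬ (l.prod : G).1 m z = z)).card := by
        symm
        refine Finset.card_bij (fun z _ => e z) ?_ ?_ ?_
        · intro z hz
          simpa using hz
        · intro z _ w _ h
          exact e.injective h
        · intro i hi
          refine ⟨e.symm i, ?_, by simp⟩
          simp only [Finset.mem_filter, Finset.mem_univ, true_and] at hi ⊢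
          intro h
          apply hi
          rw [Equiv.permCongr_apply, h, Equiv.apply_symm_apply]
      rw [h1, add_comm, Finset.card_filter_add_card_filter_not, Finset.card_univ]
    have hle : N * (Finset.univ.filter (fun z : Pt m => (l.prod : G).1 m z = z)).card
        ≤ Fintype.card (Pt m) := by
      calc N * (Finset.univ.filter (fun z : Pt m => (l.prod : G).1 m z = z)).card
          ≤ N * ((2 * N + 1) * 2 ^ (m + 1)) := by
            refine Nat.mul_le_mul_left _ (hfix.trans (Nat.mul_le_mul_right _ (by omega)))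
        _ = (N * (2 * N + 1)) * 2 ^ (m + 1) := by ring
        _ ≤ _ := by
            rw [card_Pt]
            exact Nat.mul_le_mul_right _ (by omega)
    have hdR : (0 : ℝ) < Fintype.card (Pt m) := by exact_mod_cast hd
    have hNR : (0 : ℝ) < N := by exact_mod_cast hN
    have hcR := congrArg (Nat.cast : ℕ → ℝ) hcard
    have hleR : (N : ℝ) * ((Finset.univ.filter
        (fun z : Pt m => (l.prod : G).1 m z = z)).card : ℝ) ≤ (Fintype.card (Pt m) : ℝ) := by
      exact_mod_cast hle
    rw [Nat.cast_add] at hcR
    rw [le_div_iff₀ hdR, sub_mul, one_mul, one_div, inv_mul_eq_div]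
    have : ((Finset.univ.filter (fun z : Pt m => (l.prod : G).1 m z = z)).card : ℝ)
        ≤ (Fintype.card (Pt m) : ℝ) / N := by
      rw [le_div_iff₀ hNR]; linarith
    beta_reduce
    linarith

theorem ball_finite (n : ℕ) : Finite {g : G // InBall n g} := by
  classical
  let A := {x : G // x ∈ S ∨ x⁻¹ ∈ S}
  have hA : Finite A := by
    have h1 : Set.Finite {x : G | x ∈ S ∨ x⁻¹ ∈ S} := by
      refine (S.finite_toSet.union S.finite_toSet.inv).subset ?_
      intro x hx
      rcases hx with h | h
      · left; exact h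
      · right; exact h
    exact h1
  have h2 := (List.finite_length_le A n).image (fun l => (l.map Subtype.val).prod)
  refine Set.Finite.subset h2 ?_
  rintro g ⟨l, hl, hS, rfl⟩
  refine ⟨l.pmap (fun x hx => (⟨x, hx⟩ : A)) hS, by simpa using hl, ?_⟩
  simp [List.map_pmap]

theorem ball_card (n : ℕ) : 2 ^ n ≤ Nat.card {g : G // InBall n g} := by
  have := ball_finite n
  let f : (Fin n → ZMod 2) → {g : G // InBall n g} := fun v =>
    ⟨((List.ofFn v).map ga).prod, (List.ofFn v).map ga, by simp, by
      intro x hx
      obtain ⟨e, _, rfl⟩ := List.mem_map.mp hx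
      exact Or.inl ((mem_S _).mpr ⟨e, rfl⟩), rfl⟩
  have hf : Function.Injective f := by
    intro v w h
    have h1 : ((List.ofFn v).map ga).prod = ((List.ofFn w).map ga).prod := congrArg Subtype.val h
    have h2 := congrArg (Subgroup.subtype _) h1
    rw [map_list_prod, map_list_prod, List.map_map, List.map_map] at h2
    exact List.ofFn_injective (word_inj _ _ (by simp) h2)
  have h3 := Nat.card_le_card_of_injective f hf
  simpa [Nat.card_eq_fintype_card] using h3

theorem numeric (C : ℕ) : ∃ n m : ℕ, (C * n) * (2 * (C * n) + 1) + 1 ≤ 2 ^ (m + 1) ∧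
    C * 4 ^ (m + 1) < 2 ^ n := by
  have hlin : ∀ j : ℕ, j < 2 ^ j := fun j => Nat.lt_two_pow_self
  refine ⟨2 ^ (C + 5), 4 * C + 11, ?_, ?_⟩
  · have h1 : C * 2 ^ (C + 5) + 1 ≤ 2 ^ (2 * C + 5) := by
      have h0 : C + 1 ≤ 2 ^ C := hlin C
      have h2 : 2 ^ (2 * C + 5) = 2 ^ C * 2 ^ (C + 5) := by ring
      have h3 : 1 ≤ 2 ^ (C + 5) := Nat.one_le_two_pow
      rw [h2]
      nlinarith
    have h4 : 2 ^ (4 * C + 11 + 1) = 4 * (2 ^ (2 * C + 5)) ^ 2 := by ring
    rw [h4]
    generalize C * 2 ^ (C + 5) = a at h1 ⊢
    generalize 2 ^ (2 * C + 5) = b at h1 ⊢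
    nlinarith
  · have h1 : C * 4 ^ (4 * C + 11 + 1) < 2 ^ (9 * C + 24) := by
      have h2 : 2 ^ (9 * C + 24) = 2 ^ C * 4 ^ (4 * C + 11 + 1) := by
        rw [show (4 : ℕ) = 2 ^ 2 by norm_num, ← pow_mul, ← pow_add]
        congr 1
        ring
      rw [h2]
      exact Nat.mul_lt_mul_of_pos_right (hlin C) (by positivity)
    refine h1.trans_le (Nat.pow_le_pow_right (by norm_num) ?_)
    have h0 : C + 1 ≤ 2 ^ C := hlin C
    have h2 : 2 ^ (C + 5) = 32 * 2 ^ C := by ring
    omega

end Pool.Agent.H499Z.Lamp
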