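import Mathlib

/-!
Block construction of two-generated nil algebras with prescribed large nilpotency indices, part A.
-/

set_option autoImplicit false

namespace Pool.Agent.H499Z.Nil

universe u

abbrev W : Type := FreeMonoid Bool

abbrev Alg (F : Type u) [Field F] : Type u := MonoidAlgebra F W

variable {F : Type u} [Field F]

noncomputable def o (F : Type u) [Field F] : W →* Alg F := MonoidAlgebra.of F W

noncomputable def hat (φ : W → F) : Alg F →ₗ[F] F := (MonoidAlgebra.basis W F).constr F φ

theorem basis_eq (μ : W) : MonoidAlgebra.basis W F μ = o F μ := rfl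

@[simp] theorem hat_o (φ : W → F) (μ : W) : hat φ (o F μ) = φ μ := by
  rw [← basis_eq, hat, Module.Basis.constr_basis]

theorem lin_ext {M : Type*} [AddCommGroup M] [Module F M] {f g : Alg F →ₗ[F] M}
    (h : ∀ μ, f (o F μ) = g (o F μ)) : f = g :=
  (MonoidAlgebra.basis W F).ext h

theorem alg_ind {T : Submodule F (Alg F)} (h : ∀ μ, o F μ ∈ T) (x : Alg F) : x ∈ T := by
  have h1 : (⊤ : Submodule F (Alg F)) ≤ T := by
    rw [← (MonoidAlgebra.basis W F).span_eq, Submodule.span_le]
    rintro _ ⟨μ, rfl⟩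
    exact h μ
  exact h1 Submodule.mem_top

/-- Homogeneous elements of degree `d`. -/
noncomputable def H (F : Type u) [Field F] (d : ℕ) : Submodule F (Alg F) :=
  Submodule.span F (o F '' {μ | μ.length = d})

theorem o_mem_H (μ : W) : o F μ ∈ H F μ.length := Submodule.subset_span ⟨μ, rfl, rfl⟩

theorem H_mul {i j : ℕ} {x y : Alg F} (hx : x ∈ H F i) (hy : y ∈ H F j) :
    x * y ∈ H F (i + j) := by
  have h := Submodule.mul_mem_mul hx hy
  rw [H, H, Submodule.span_mul_span] at h
  refine Submodule.span_mono ?_ h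
  rintro _ ⟨_, ⟨μ, hμ, rfl⟩, _, ⟨ν, hν, rfl⟩, rfl⟩
  refine ⟨μ * ν, ?_, map_mul _ _ _⟩
  simp only [Set.mem_ofPred_eq] at hμ hν ⊢
  rw [FreeMonoid.length_mul, hμ, hν]

theorem H_ind {d : ℕ} {T : Submodule F (Alg F)} (h : ∀ μ : W, μ.length = d → o F μ ∈ T)
    {x : Alg F} (hx : x ∈ H F d) : x ∈ T := by
  refine (Submodule.span_le.mpr ?_) hx
  rintro _ ⟨μ, hμ, rfl⟩
  exact h μ hμ

def Supp (φ : W → F) (N : ℕ) : Prop := ∀ μ : W, μ.length ≠ N → φ μ = 0

theorem Supp.hat_eq_zero {φ : W → F} {N d : ℕ} (h : Supp φ N) (hd : d ≠ N) {x : Alg F}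
    (hx : x ∈ H F d) : hat φ x = 0 :=
  H_ind (T := LinearMap.ker (hat φ)) (fun μ hμ => by
    rw [LinearMap.mem_ker, hat_o]; exact h μ (hμ ▸ hd)) hx

theorem exists_split (μ : W) (n : ℕ) (hn : n ≤ μ.length) :
    ∃ p s : W, μ = p * s ∧ p.length = n := by
  refine ⟨FreeMonoid.ofList (μ.toList.take n), FreeMonoid.ofList (μ.toList.drop n), ?_, ?_⟩
  · rw [← FreeMonoid.ofList_append, List.take_append_drop, FreeMonoid.ofList_toList]
  · show (μ.toList.take n).length = n
    rw [List.length_take]
    exact min_eq_left hn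

/-- Product of two functionals. -/
def tens (N : ℕ) (φ ψ : W → F) : W → F := fun μ =>
  φ (FreeMonoid.ofList (μ.toList.take N)) * ψ (FreeMonoid.ofList (μ.toList.drop N))

theorem tens_mul {N : ℕ} (φ ψ : W → F) (p s : W) (hp : p.length = N) :
    tens N φ ψ (p * s) = φ p * ψ s := by
  have h : p.toList.length = N := hp
  simp only [tens, FreeMonoid.toList_mul]
  rw [List.take_left' h, List.drop_left' h]
  rfl

theorem tens_short {N : ℕ} {φ : W → F} (h : Supp φ N) (ψ : W → F) (μ : W) (hμ : μ.length < N) :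
    tens N φ ψ μ = 0 := by
  unfold tens
  rw [h, zero_mul]
  show (μ.toList.take N).length ≠ N
  rw [List.length_take]
  have : μ.toList.length = μ.length := rfl
  omega

theorem Supp.tens {N N' : ℕ} {φ ψ : W → F} (h : Supp φ N) (h' : Supp ψ N') :
    Supp (tens N φ ψ) (N + N') := by
  intro μ hμ
  rcases lt_or_ge μ.length N with h1 | h1
  · exact tens_short h ψ μ h1
  · obtain ⟨p, s, rfl, hp⟩ := exists_split μ N h1
    rw [tens_mul _ _ _ _ hp, h' s, mul_zero]
    rw [FreeMonoid.length_mul] at hμ
    omega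

theorem hat_tens {N : ℕ} (φ ψ : W → F) {x : Alg F} (hx : x ∈ H F N) (y : Alg F) :
    hat (tens N φ ψ) (x * y) = hat φ x * hat ψ y := by
  have h1 : ∀ s : W, hat (tens N φ ψ) (x * o F s) = hat φ x * ψ s := by
    intro s
    refine H_ind (T := LinearMap.eqLocus ((hat (tens N φ ψ)).comp (LinearMap.mulRight F (o F s)))
      (ψ s • hat φ)) (fun p hp => ?_) hx |>.trans ?_
    · simp [LinearMap.mem_eqLocus, ← map_mul, tens_mul _ _ _ _ hp, mul_comm]
    · simp [mul_comm]
  have h2 : (hat (tens N φ ψ)).comp (LinearMap.mulLeft F x) = hat φ x • hat ψ :=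
    lin_ext (fun s => by simp [h1])
  simpa using LinearMap.congr_fun h2 y

/-- `φ` kills the elements of `T` placed at positions divisible by `M`. -/
def Kill (T : Set (Alg F)) (M : ℕ) (φ : W → F) : Prop :=
  ∀ g ∈ T, ∀ P S : W, M ∣ P.length → hat φ (o F P * g * o F S) = 0

theorem Kill.tens {T : Set (Alg F)} {M N : ℕ} (hT : ∀ g ∈ T, g ∈ H F M) (hMN : M ∣ N)
    {φ ψ : W → F} (hφ : Supp φ N) (h : Kill T M φ) (h' : Kill T M ψ) :
    Kill T M (tens N φ ψ) := by
  intro g hg P S hP
  rcases le_or_gt N P.length with h1 | h1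
  · obtain ⟨p, s, rfl, hp⟩ := exists_split P N h1
    rw [map_mul (o F), mul_assoc, mul_assoc, hat_tens _ _ (hp ▸ o_mem_H p), ← mul_assoc, h' g hg,
      mul_zero]
    rw [FreeMonoid.length_mul, hp] at hP
    exact (Nat.dvd_add_right hMN).mp hP
  · have h2 : P.length + M ≤ N := by
      obtain ⟨a, ha⟩ := hP
      obtain ⟨b, hb⟩ := hMN
      rw [ha, hb] at h1 ⊢
      have : a < b := lt_of_mul_lt_mul_left h1 (Nat.zero_le _)
      nlinarith
    rcases le_or_gt (N - (P.length + M)) S.length with h3 | h3
    · obtain ⟨p, s, rfl, hp⟩ := exists_split S _ h3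
      have h4 : o F P * g * o F p ∈ H F N := by
        have := H_mul (H_mul (o_mem_H (F := F) P) (hT g hg)) (o_mem_H p)
        rwa [hp, Nat.add_sub_cancel' h2] at this
      rw [map_mul (o F), ← mul_assoc, hat_tens _ _ h4, h g hg P p hP, zero_mul]
    · refine H_ind (T := LinearMap.ker (hat (Nil.tens N φ ψ))) (fun μ hμ => ?_)
        (H_mul (H_mul (o_mem_H (F := F) P) (hT g hg)) (o_mem_H S))
      rw [LinearMap.mem_ker, hat_o]
      exact tens_short hφ ψ μ (by omega)

theorem Kill.ext {T : Set (Alg F)} {M : ℕ} {φ : W → F} (h : Kill T M φ) {d : ℕ} (hd : M ∣ d)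
    {x g : Alg F} (hx : x ∈ H F d) (hg : g ∈ Submodule.span F T) (y : Alg F) :
    hat φ (x * g * y) = 0 := by
  have h1 : ∀ g ∈ T, ∀ P : W, M ∣ P.length → hat φ (o F P * g * y) = 0 := by
    intro g hg P hP
    exact alg_ind (T := LinearMap.ker ((hat φ).comp (LinearMap.mulLeft F (o F P * g))))
      (fun S => h g hg P S hP) y
  have h2 : ∀ g ∈ T, hat φ (x * g * y) = 0 := by
    intro g hg
    exact H_ind (T := LinearMap.ker ((hat φ).comp
      ((LinearMap.mulRight F y).comp (LinearMap.mulRight F g))))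
      (fun P hP => h1 g hg P (hP ▸ hd)) hx
  exact (Submodule.span_le (p := LinearMap.ker ((hat φ).comp
      ((LinearMap.mulRight F y).comp (LinearMap.mulLeft F x))))).mpr (fun g hg => h2 g hg) hg

/-! ### Powers of an element of bounded degree -/

abbrev Wle (m : ℕ) : Type := {μ : W // μ.length ≤ m}

abbrev I (m : ℕ) : Type := {μ : W // 0 < μ.length ∧ μ.length ≤ m}

instance (m : ℕ) : Finite (Wle m) := List.finite_length_le Bool m

instance (m : ℕ) : Finite (I m) :=
  Finite.of_injective (fun μ : I m => (⟨μ.1, μ.2.2⟩ : Wle m))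
    (fun _ _ h => Subtype.ext (congrArg (fun x : Wle m => x.1) h))

noncomputable instance (m : ℕ) : Fintype (Wle m) := Fintype.ofFinite _

noncomputable instance (m : ℕ) : Fintype (I m) := Fintype.ofFinite _

def cat {m a : ℕ} (l : Fin a → I m) : W := (List.ofFn (fun k => (l k).1)).prod

theorem cat_snoc {m a : ℕ} (l : Fin a → I m) (μ : I m) :
    cat (Fin.snoc (α := fun _ => I m) l μ) = cat l * μ.1 := by
  unfold cat
  rw [List.ofFn_succ', List.prod_concat]
  simp

theorem le_length_cat {m a : ℕ} (l : Fin a → I m) : a ≤ (cat l).length := by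
  induction a with
  | zero => exact Nat.zero_le _
  | succ a ih =>
    rw [← Fin.snoc_init_self l, cat_snoc, FreeMonoid.length_mul]
    have := ih (Fin.init l)
    have := (l (Fin.last a)).2.1
    omega

open Classical in
noncomputable def part {m : ℕ} (c : I m → F) (a : ℕ) (P : ℕ → Prop) : Alg F :=
  ∑ l : Fin a → I m, if P (cat l).length then (∏ k, c (l k)) • o F (cat l) else 0

noncomputable def elt {m : ℕ} (c : I m → F) : Alg F := ∑ μ : I m, c μ • o F μ.1

open Classical in
theorem part_succ {m : ℕ} (c : I m → F) (a : ℕ) (P : ℕ → Prop) :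
    part c (a + 1) P = ∑ μ : I m, part c a (fun j => P (j + μ.1.length)) * (c μ • o F μ.1) := by
  unfold part
  rw [← (Fin.snocEquiv (fun _ : Fin (a + 1) => I m)).sum_comp, Fintype.sum_prod_type]
  refine Finset.sum_congr rfl (fun μ _ => ?_)
  rw [Finset.sum_mul]
  refine Finset.sum_congr rfl (fun l _ => ?_)
  have h1 : (Fin.snocEquiv (fun _ : Fin (a + 1) => I m)) (μ, l) =
      Fin.snoc (α := fun _ => I m) l μ := rfl
  rw [h1, cat_snoc, FreeMonoid.length_mul, Fin.prod_univ_castSucc]
  simp only [Fin.snoc_castSucc, Fin.snoc_last]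
  split_ifs
  · rw [map_mul, smul_mul_smul_comm]
  · rw [zero_mul]

open Classical in
theorem part_sub {m : ℕ} (c : I m → F) (a e k : ℕ) :
    part c a (fun j => j < e) - part c a (fun j => j + k < e) =
      ∑ j ∈ (Finset.range e).filter (fun j => e ≤ j + k), part c a (fun i => i = j) := by
  unfold part
  rw [← Finset.sum_sub_distrib, Finset.sum_comm]
  refine Finset.sum_congr rfl (fun l _ => ?_)
  beta_reduce
  have h0 := Finset.sum_ite_eq ((Finset.range e).filter (fun j => e ≤ j + k)) (cat l).length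
    (fun _ => (∏ k, c (l k)) • o F (cat l))
  refine Eq.trans ?_ (h0.symm.trans (by congr!))
  simp only [Finset.mem_filter, Finset.mem_range]
  by_cases h1 : (cat l).length < e
  · by_cases h2 : (cat l).length + k < e
    · rw [if_pos h1, if_pos h2, if_neg (by omega), sub_self]
    · rw [if_pos h1, if_neg h2, if_pos ⟨h1, by omega⟩, sub_zero]
  · rw [if_neg h1, if_neg (by omega), if_neg (by omega), sub_self]

theorem part_mem_H {m : ℕ} (c : I m → F) (a j : ℕ) : part c a (fun i => i = j) ∈ H F j := by
  unfold part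
  refine Submodule.sum_mem _ (fun l _ => ?_)
  split_ifs with h
  · exact Submodule.smul_mem _ _ (h ▸ o_mem_H _)
  · exact zero_mem _

theorem cut {m : ℕ} (c : I m → F) (e b : ℕ) (he : 0 < e) (hb : e ≤ b) (T : Submodule F (Alg F))
    (hT : ∀ (a j : ℕ) (p s : W), a < e → j + p.length = e → p.length ≤ m → s.length ≤ m →
      part c a (fun i => i = j) * o F p * o F s * elt c ^ (b - a - 1) ∈ T) :
    elt c ^ b ∈ T := by
  have key : ∀ a, a ≤ e → elt c ^ b - part c a (fun j => j < e) * elt c ^ (b - a) ∈ T := by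
    intro a
    induction a with
    | zero =>
      intro _
      have : part c 0 (fun j => j < e) = 1 := by
        simp [part, cat, he]
      simp [this]
    | succ a ih =>
      intro ha
      have h1 : elt c ^ (b - a) = elt c * elt c ^ (b - a - 1) := by
        rw [← pow_succ']
        congr 1
        omega
      have h2 : elt c ^ b - part c (a + 1) (fun j => j < e) * elt c ^ (b - (a + 1)) =
          (elt c ^ b - part c a (fun j => j < e) * elt c ^ (b - a)) +
          ∑ μ : I m, (part c a (fun j => j < e) - part c a (fun j => j + μ.1.length < e))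
            * (c μ • o F μ.1) * elt c ^ (b - a - 1) := by
        rw [h1, part_succ, ← Finset.sum_mul, Nat.sub_add_eq]
        simp only [sub_mul, Finset.sum_sub_distrib, ← Finset.mul_sum]
        rw [← mul_assoc]
        unfold elt
        abel
      rw [h2]
      refine add_mem (ih (by omega)) (Submodule.sum_mem _ (fun μ _ => ?_))
      rw [part_sub, Finset.sum_mul, Finset.sum_mul]
      refine Submodule.sum_mem _ (fun j hj => ?_)
      simp only [Finset.mem_filter, Finset.mem_range] at hj
      obtain ⟨p, s, h3, h4⟩ := exists_split μ.1 (e - j) (by omega)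
      have h5 := μ.2.2
      rw [h3, FreeMonoid.length_mul] at h5
      rw [mul_smul_comm, smul_mul_assoc, h3, map_mul, ← mul_assoc]
      exact Submodule.smul_mem _ _ (hT a j p s (by omega) (by omega) (by omega) (by omega))
  have h0 : part c e (fun j => j < e) = 0 := by
    unfold part
    refine Finset.sum_eq_zero (fun l _ => if_neg ?_)
    exact not_lt.mpr (le_length_cat l)
  simpa [h0] using key e le_rfl

open Classical in
/-- The symmetrised products. -/
noncomputable def sym (F : Type u) [Field F] {m : ℕ} (a j : ℕ) (β : I m → ℕ) : Alg F :=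
  ∑ l : Fin a → I m with (fun i => (Finset.univ.filter (fun k => l k = i)).card) = β,
    if (cat l).length = j then o F (cat l) else 0

theorem sym_mem_H {m : ℕ} (a j : ℕ) (β : I m → ℕ) : sym F a j β ∈ H F j := by
  unfold sym
  refine Submodule.sum_mem _ (fun l _ => ?_)
  split_ifs with h
  · exact h ▸ o_mem_H _
  · exact zero_mem _

abbrev J (m M : ℕ) : Type := Wle m × Wle m × Fin M × (I m → Fin (M + 1))

noncomputable def fam (F : Type u) [Field F] (m M : ℕ) (x : J m M) : Alg F :=
  o F x.1.1 * sym F x.2.2.1 (M - x.1.1.length - x.2.1.1.length) (fun i => x.2.2.2 i) * o F x.2.1.1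

theorem fam_mem_H {m M : ℕ} (h : 2 * m ≤ M) (x : J m M) : fam F m M x ∈ H F M := by
  have := H_mul (H_mul (o_mem_H (F := F) x.1.1)
    (sym_mem_H x.2.2.1 (M - x.1.1.length - x.2.1.1.length) (fun i => x.2.2.2 i))) (o_mem_H x.2.1.1)
  have h1 := x.1.2
  have h2 := x.2.1.2
  rwa [show x.1.1.length + (M - x.1.1.length - x.2.1.1.length) + x.2.1.1.length = M by omega]
    at this

theorem part_mem_span {m M : ℕ} (c : I m → F) (a j : ℕ) (s p : W) (ha : a < M)
    (hs : s.length ≤ m) (hp : p.length ≤ m) (hj : s.length + j + p.length = M) :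
    o F s * part c a (fun i => i = j) * o F p ∈ Submodule.span F (Set.range (fam F m M)) := by
  classical
  let cnt : (Fin a → I m) → (I m → ℕ) := fun l i => (Finset.univ.filter (fun k => l k = i)).card
  have h1 : part c a (fun i => i = j) =
      ∑ β ∈ Finset.univ.image cnt, (∏ i, c i ^ β i) • sym F a j β := by
    unfold part sym
    rw [← Finset.sum_fiberwise_of_maps_to (s := Finset.univ) (t := Finset.univ.image cnt)
      (g := cnt) (fun l _ => Finset.mem_image_of_mem _ (Finset.mem_univ l))]
    refine Finset.sum_congr rfl (fun β _ => ?_)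
    rw [Finset.smul_sum]
    refine Finset.sum_congr (by congr) (fun l hl => ?_)
    have h2 : cnt l = β := (Finset.mem_filter.mp hl).2
    have h3 : ∏ k, c (l k) = ∏ i, c i ^ β i := by
      rw [← h2, ← Finset.prod_fiberwise Finset.univ l]
      refine Finset.prod_congr rfl (fun i _ => ?_)
      rw [Finset.prod_congr rfl (g := fun _ => c i), Finset.prod_const]
      intro k hk
      rw [(Finset.mem_filter.mp hk).2]
    split_ifs
    · rw [h3]
    · rw [smul_zero]
  rw [h1, Finset.mul_sum, Finset.sum_mul]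
  refine Submodule.sum_mem _ (fun β hβ => ?_)
  rw [mul_smul_comm, smul_mul_assoc]
  refine Submodule.smul_mem _ _ (Submodule.subset_span ?_)
  obtain ⟨l, _, rfl⟩ := Finset.mem_image.mp hβ
  have h4 : ∀ i, cnt l i < M + 1 := by
    intro i
    have := Finset.card_filter_le (Finset.univ : Finset (Fin a)) (fun k => l k = i)
    rw [Finset.card_univ, Fintype.card_fin] at this
    simp only [cnt]
    omega
  refine ⟨(⟨s, hs⟩, ⟨p, hp⟩, ⟨a, ha⟩, fun i => ⟨cnt l i, h4 i⟩), ?_⟩
  simp only [fam]
  rw [show M - s.length - p.length = j by omega]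

theorem nil_of_kill {m M : ℕ} (hm : m < M) {φ : W → F} (h : Kill (Set.range (fam F m M)) M φ)
    (c : I m → F) (u v : W) : hat φ (o F u * elt c ^ (2 * M) * o F v) = 0 := by
  have hM : 0 < M := by omega
  have hmod := Nat.mod_lt u.length hM
  refine cut c (M - u.length % M) (2 * M) (by omega) (by omega)
    (LinearMap.ker ((hat φ).comp ((LinearMap.mulRight F (o F v)).comp
      (LinearMap.mulLeft F (o F u))))) ?_
  intro a j p s ha hj hp hs
  refine cut c (M - s.length) (2 * M - a - 1) (by omega) (by omega)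
    (LinearMap.ker ((hat φ).comp ((LinearMap.mulRight F (o F v)).comp
      ((LinearMap.mulLeft F (o F u)).comp
        (LinearMap.mulLeft F (part c a (fun i => i = j) * o F p * o F s)))))) ?_
  intro a' j' p' s' ha' hj' hp' _
  have h1 := H_mul (H_mul (o_mem_H (F := F) u) (part_mem_H c a j)) (o_mem_H p)
  have h2 : M ∣ u.length + j + p.length := by
    have h3 := Nat.div_add_mod u.length M
    refine ⟨u.length / M + 1, ?_⟩
    rw [mul_add]
    omega
  have h4 := h.ext h2 h1 (part_mem_span c a' j' s p' (by omega) hs hp' (by omega))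
    (o F s' * elt c ^ (2 * M - a - 1 - a' - 1) * o F v)
  simp only [LinearMap.mem_ker, LinearMap.comp_apply, LinearMap.mulLeft_apply,
    LinearMap.mulRight_apply]
  simp only [mul_assoc] at h4 ⊢
  exact h4

end Pool.Agent.H499Z.Nil
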