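import Pool.Agent.H499Z.NilA

/-!
Block construction of two-generated nil algebras with prescribed large nilpotency indices, part B.
-/

set_option autoImplicit false

namespace Pool.Agent.H499Z.Nil

universe u

variable {F : Type u} [Field F]

theorem lin_alg {S J : Type} [Fintype S] [Fintype J] (h : Fintype.card J + 2 ≤ Fintype.card S)
    (B : S → J → F) : ∃ (s : Bool → S) (c : Bool → S → F),
      (∀ i j, c i (s j) = if i = j then 1 else 0) ∧ ∀ i x, ∑ σ, c i σ * B σ x = 0 := by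
  classical
  let f : (S → F) →ₗ[F] (J → F) := Matrix.vecMulLinear (Matrix.of B)
  have hf : ∀ c x, f c x = ∑ σ, c σ * B σ x := fun c x => rfl
  obtain ⟨c1, h1, h1'⟩ := (Submodule.ne_bot_iff _).mp
    (LinearMap.ker_ne_bot_of_finrank_lt (f := f) (by simp; omega))
  obtain ⟨s1, hs1⟩ := Function.ne_iff.mp h1'
  obtain ⟨c2, h2, h2'⟩ := (Submodule.ne_bot_iff _).mp
    (LinearMap.ker_ne_bot_of_finrank_lt (f := f.prod (LinearMap.proj s1)) (by simp; omega))
  obtain ⟨s2, hs2⟩ := Function.ne_iff.mp h2'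
  rw [LinearMap.ker_prod, Submodule.mem_inf, LinearMap.mem_ker, LinearMap.mem_ker] at h2
  have h21 : c2 s1 = 0 := h2.2
  rw [LinearMap.mem_ker] at h1
  simp only [Pi.zero_apply] at hs1 hs2
  refine ⟨fun i => if i then s1 else s2, fun i => if i then
    (c1 s1)⁻¹ • (c1 - (c1 s2 * (c2 s2)⁻¹) • c2) else (c2 s2)⁻¹ • c2, ?_, ?_⟩
  · intro i j
    cases i <;> cases j <;> simp [h21, hs1, hs2]
  · intro i x
    rw [← hf]
    cases i <;> simp [h1, h2.1]

theorem numeric (a r N t m : ℕ) : ∃ q : ℕ, 2 * m < t + q ∧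
    a * (N * (t + q)) * (N * (t + q) + 1) ^ r + 2 ≤ 2 ^ q := by
  let C : ℕ := a * (N * (t + 1)) * (N * (t + 1) + 1) ^ r + 2
  have h := isLittleO_pow_const_const_pow_of_one_lt (R := ℝ) (r + 1) (r := 2) (by norm_num)
  have h1 := h.def (c := 1 / (C : ℝ)) (by positivity)
  obtain ⟨q, hq, hq'⟩ := (h1.and (Filter.eventually_ge_atTop (2 * m + 1))).exists
  refine ⟨q, by omega, ?_⟩
  have hC : (0 : ℝ) < C := by positivity
  rw [Real.norm_of_nonneg (by positivity), Real.norm_of_nonneg (by positivity), one_div,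
    inv_mul_eq_div, le_div_iff₀ hC] at hq
  have h2 : q ^ (r + 1) * C ≤ 2 ^ q := by exact_mod_cast hq
  refine le_trans ?_ h2
  have h3 : 1 ≤ q := by omega
  have h4 : t + q ≤ (t + 1) * q := by nlinarith
  have h5 : N * (t + q) ≤ N * (t + 1) * q := by
    rw [mul_assoc]; exact Nat.mul_le_mul_left _ h4
  have h6 : N * (t + q) + 1 ≤ (N * (t + 1) + 1) * q := by
    rw [add_mul, one_mul]; omega
  have h7 : (N * (t + q) + 1) ^ r ≤ (N * (t + 1) + 1) ^ r * q ^ r := by
    rw [← mul_pow]; exact Nat.pow_le_pow_left h6 r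
  have h8 : 1 ≤ q ^ (r + 1) := Nat.one_le_pow _ _ h3
  calc a * (N * (t + q)) * (N * (t + q) + 1) ^ r + 2
      ≤ a * (N * (t + 1) * q) * ((N * (t + 1) + 1) ^ r * q ^ r) + 2 * q ^ (r + 1) :=
        add_le_add (Nat.mul_le_mul (Nat.mul_le_mul_left _ h5) h7) (by omega)
    _ = q ^ (r + 1) * C := by simp only [C]; ring

structure Lev (F : Type u) [Field F] where
  N : ℕ
  pos : 0 < N
  e : Bool → W
  he : ∀ i, (e i).length = N
  γ : Bool → W → F
  supp : ∀ i, Supp (γ i) N
  dual : ∀ i j, γ i (e j) = if i = j then 1 else 0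

open Classical in
noncomputable def Lev.Φ (L : Lev F) : List Bool → W → F
  | [] => fun μ => if μ = 1 then 1 else 0
  | i :: s => tens L.N (L.γ i) (L.Φ s)

def Lev.E (L : Lev F) (s : List Bool) : W := (s.map L.e).prod

theorem Lev.supp_Φ (L : Lev F) (s : List Bool) : Supp (L.Φ s) (L.N * s.length) := by
  induction s with
  | nil =>
    intro μ hμ
    simp only [Lev.Φ]
    rw [if_neg]
    rintro rfl
    simp at hμ
  | cons i s ih =>
    rw [List.length_cons, mul_add, mul_one, add_comm]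
    exact (L.supp i).tens ih

theorem Lev.length_E (L : Lev F) (s : List Bool) : (L.E s).length = L.N * s.length := by
  induction s with
  | nil => simp [Lev.E]
  | cons i s ih =>
    simp only [Lev.E, List.map_cons, List.prod_cons, FreeMonoid.length_mul, List.length_cons] at ih ⊢
    rw [ih, L.he]
    ring

theorem Lev.Φ_E (L : Lev F) (s s' : List Bool) (h : s.length = s'.length) :
    L.Φ s (L.E s') = if s = s' then 1 else 0 := by
  induction s generalizing s' with
  | nil =>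
    obtain rfl : s' = [] := List.length_eq_zero_iff.mp h.symm
    simp [Lev.Φ, Lev.E]
  | cons i s ih =>
    cases s' with
    | nil => simp at h
    | cons j s' =>
      have h1 : L.E (j :: s') = L.e j * L.E s' := by simp [Lev.E]
      rw [h1, Lev.Φ, tens_mul _ _ _ _ (L.he j), L.dual, ih s' (by simpa using h)]
      by_cases h2 : i = j <;> by_cases h3 : s = s' <;> simp [h2, h3]

theorem Lev.kill_Φ (L : Lev F) {T : Set (Alg F)} {M : ℕ} (hM : 0 < M) (hT : ∀ g ∈ T, g ∈ H F M)
    (hMN : M ∣ L.N) (h : ∀ i, Kill T M (L.γ i)) (s : List Bool) : Kill T M (L.Φ s) := by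
  induction s with
  | nil =>
    intro g hg P S _
    refine (L.supp_Φ []).hat_eq_zero ?_
      (H_mul (H_mul (o_mem_H (F := F) P) (hT g hg)) (o_mem_H S))
    simp
    omega
  | cons i s ih => exact Kill.tens hT hMN (L.supp i) (h i) ih

theorem hat_sum {S : Type} [Fintype S] (c : S → F) (φ : S → W → F) (x : Alg F) :
    hat (fun μ => ∑ σ, c σ * φ σ μ) x = ∑ σ, c σ * hat (φ σ) x := by
  have : hat (fun μ => ∑ σ, c σ * φ σ μ) = ∑ σ, c σ • hat (φ σ) :=
    lin_ext (fun μ => by simp [LinearMap.sum_apply])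
  rw [this]
  simp [LinearMap.sum_apply]

theorem Lev.step (L : Lev F) (t m : ℕ) : ∃ L' : Lev F, L.N ∣ L'.N ∧ m < L'.N ∧
    (∃ v, L'.e true = L.e true ^ t * v) ∧
    (∀ i, Kill (Set.range (fam F m L'.N)) L'.N (L'.γ i)) ∧
    (∀ x, fam F m L'.N x ∈ H F L'.N) ∧
    ∀ (T : Set (Alg F)) (M : ℕ), 0 < M → (∀ g ∈ T, g ∈ H F M) → M ∣ L.N →
      (∀ i, Kill T M (L.γ i)) → ∀ i, Kill T M (L'.γ i) := by
  classical
  obtain ⟨q, hq1, hq2⟩ := numeric (Fintype.card (Wle m) * Fintype.card (Wle m))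
    (Fintype.card (I m)) L.N t m
  let M := L.N * (t + q)
  have hM : t + q ≤ M := Nat.le_mul_of_pos_left _ L.pos
  let ls : (Fin q → Bool) → List Bool := fun σ => List.replicate t true ++ List.ofFn σ
  have hls : ∀ σ, (ls σ).length = t + q := fun σ => by simp [ls]
  have hinj : Function.Injective ls := fun σ σ' h =>
    List.ofFn_injective (List.append_cancel_left h)
  obtain ⟨s, c, h1, h2⟩ := lin_alg (S := Fin q → Bool) (J := J m M) (F := F) (by
    simp only [Fintype.card_prod, Fintype.card_fin, Fintype.card_pi, Finset.prod_const,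
      Finset.card_univ, Fintype.card_bool]
    refine le_trans (le_of_eq ?_) hq2
    simp only [M]
    ring) (fun σ x => hat (L.Φ (ls σ)) (fam F m M x))
  have hsupp : ∀ i, Supp (fun μ => ∑ σ, c i σ * L.Φ (ls σ) μ) M := by
    intro i μ hμ
    refine Finset.sum_eq_zero (fun σ _ => ?_)
    rw [L.supp_Φ (ls σ) μ (by rwa [hls]), mul_zero]
  refine ⟨⟨M, by omega, fun i => L.E (ls (s i)), fun i => by rw [L.length_E, hls],
    fun i μ => ∑ σ, c i σ * L.Φ (ls σ) μ, hsupp, ?_⟩, dvd_mul_right _ _, ?_, ?_, ?_, ?_, ?_⟩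
  · intro i j
    rw [← h1 i j, Finset.sum_eq_single (s j)]
    · rw [L.Φ_E _ _ rfl, if_pos rfl, mul_one]
    · intro σ _ hσ
      rw [L.Φ_E _ _ (by rw [hls, hls]), if_neg (fun h => hσ (hinj h)), mul_zero]
    · simp
  · show m < M
    omega
  · exact ⟨L.E (List.ofFn (s true)), by simp [Lev.E, ls]⟩
  · rintro i _ ⟨x, rfl⟩ P S _
    have hx := fam_mem_H (F := F) (show 2 * m ≤ M by omega) x
    by_cases h : P.length + M + S.length = M
    · obtain rfl : P = 1 := FreeMonoid.length_eq_zero.mp (by omega)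
      obtain rfl : S = 1 := FreeMonoid.length_eq_zero.mp (by omega)
      rw [map_one, one_mul, mul_one, hat_sum]
      exact h2 i x
    · exact (hsupp i).hat_eq_zero h (H_mul (H_mul (o_mem_H (F := F) P) hx) (o_mem_H S))
  · exact fam_mem_H (show 2 * m ≤ M by omega)
  · intro T M' hM' hT hd hk i g hg P S hP
    rw [hat_sum]
    refine Finset.sum_eq_zero (fun σ _ => ?_)
    rw [L.kill_Φ hM' hT hd hk (ls σ) g hg P S hP, mul_zero]

open Classical in
noncomputable def lev0 (F : Type u) [Field F] : Lev F where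
  N := 1
  pos := one_pos
  e := FreeMonoid.of
  he := fun _ => rfl
  γ := fun i μ => if FreeMonoid.of i = μ then 1 else 0
  supp := by
    intro i μ hμ
    refine if_neg ?_
    rintro rfl
    exact hμ rfl
  dual := by
    intro i j
    simp [FreeMonoid.of_injective.eq_iff]

noncomputable def lev (F : Type u) [Field F] (T : ℕ → W → ℕ) : ℕ → Lev F
  | 0 => lev0 F
  | k + 1 => ((lev F T k).step (T k ((lev F T k).e true) + 1) k).choose

noncomputable def ideal (F : Type u) [Field F] (T : ℕ → W → ℕ) : Ideal (Alg F) where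
  carrier := {r | ∃ K, ∀ K', K ≤ K' → ∀ x y, hat ((lev F T K').γ true) (x * r * y) = 0}
  add_mem' := by
    rintro a b ⟨K, hK⟩ ⟨K', hK'⟩
    refine ⟨max K K', fun k hk x y => ?_⟩
    rw [mul_add, add_mul, map_add, hK k (le_of_max_le_left hk), hK' k (le_of_max_le_right hk),
      add_zero]
  zero_mem' := ⟨0, fun _ _ _ _ => by simp⟩
  smul_mem' := by
    rintro c a ⟨K, hK⟩
    refine ⟨K, fun k hk x y => ?_⟩
    rw [smul_eq_mul, ← mul_assoc]
    exact hK k hk _ _

instance (T : ℕ → W → ℕ) : (ideal F T).IsTwoSided where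
  mul_mem_of_left := by
    rintro a b ⟨K, hK⟩
    refine ⟨K, fun k hk x y => ?_⟩
    rw [← mul_assoc, mul_assoc _ b]
    exact hK k hk _ _

theorem elt_pow_mem (T : ℕ → W → ℕ) {m : ℕ} (c : I m → F) :
    elt c ^ (2 * (lev F T (m + 1)).N) ∈ ideal F T := by
  obtain ⟨-, h2, -, h4, h5, -⟩ :=
    ((lev F T m).step (T m ((lev F T m).e true) + 1) m).choose_spec
  change m < (lev F T (m + 1)).N at h2
  change ∀ i, Kill (Set.range (fam F m (lev F T (m + 1)).N)) (lev F T (m + 1)).N
    ((lev F T (m + 1)).γ i) at h4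
  change ∀ x, fam F m (lev F T (m + 1)).N x ∈ H F (lev F T (m + 1)).N at h5
  have key : ∀ K, m + 1 ≤ K → (lev F T (m + 1)).N ∣ (lev F T K).N ∧
      ∀ i, Kill (Set.range (fam F m (lev F T (m + 1)).N)) (lev F T (m + 1)).N
        ((lev F T K).γ i) := by
    intro K hK
    induction K, hK using Nat.le_induction with
    | base => exact ⟨dvd_rfl, h4⟩
    | succ K _ ih =>
      obtain ⟨h1', -, -, -, -, h6'⟩ :=
        ((lev F T K).step (T K ((lev F T K).e true) + 1) K).choose_spec
      refine ⟨ih.1.trans h1', h6' _ _ (by omega) ?_ ih.1 ih.2⟩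
      rintro _ ⟨x, rfl⟩
      exact h5 x
  refine ⟨m + 1, fun K hK x y => ?_⟩
  have h7 := nil_of_kill h2 ((key K hK).2 true) c
  have h8 : ∀ u : W, hat ((lev F T K).γ true)
      (o F u * elt c ^ (2 * (lev F T (m + 1)).N) * y) = 0 := fun u =>
    alg_ind (T := LinearMap.ker ((hat ((lev F T K).γ true)).comp
      (LinearMap.mulLeft F (o F u * elt c ^ (2 * (lev F T (m + 1)).N))))) (fun v => h7 u v) y
  exact alg_ind (T := LinearMap.ker ((hat ((lev F T K).γ true)).comp
      ((LinearMap.mulRight F y).comp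
        (LinearMap.mulRight F (elt c ^ (2 * (lev F T (m + 1)).N)))))) h8 x

theorem pow_not_mem (T : ℕ → W → ℕ) (k : ℕ) :
    o F ((lev F T k).e true) ^ (T k ((lev F T k).e true)) ∉ ideal F T := by
  have key : ∀ K, k + 1 ≤ K → ∃ v, (lev F T K).e true =
      (lev F T k).e true ^ (T k ((lev F T k).e true)) * v := by
    intro K hK
    induction K, hK using Nat.le_induction with
    | base =>
      obtain ⟨-, -, ⟨v, hv⟩, -⟩ :=
        ((lev F T k).step (T k ((lev F T k).e true) + 1) k).choose_spec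
      exact ⟨_, hv.trans (by rw [pow_succ, mul_assoc])⟩
    | succ K _ ih =>
      obtain ⟨-, -, ⟨v, hv⟩, -⟩ :=
        ((lev F T K).step (T K ((lev F T K).e true) + 1) K).choose_spec
      obtain ⟨w, hw⟩ := ih
      refine ⟨w * ((lev F T K).e true ^ (T K ((lev F T K).e true)) * v), hv.trans ?_⟩
      rw [pow_succ', mul_assoc, ← mul_assoc _ w, ← hw]
  rintro ⟨K, hK⟩
  obtain ⟨v, hv⟩ := key (max K (k + 1)) (le_max_right _ _)
  have h1 := hK (max K (k + 1)) (le_max_left _ _) 1 (o F v)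
  rw [one_mul, ← map_pow, ← map_mul (o F), ← hv, hat_o, Lev.dual] at h1
  simp at h1

/-- The augmentation ideal of the free algebra. -/
noncomputable def aug (F : Type u) [Field F] : NonUnitalSubalgebra F (Alg F) :=
  (Submodule.span F (o F '' {μ | 0 < μ.length})).toNonUnitalSubalgebra (by
    intro x y hx hy
    have h := Submodule.mul_mem_mul hx hy
    rw [Submodule.span_mul_span] at h
    refine Submodule.span_mono ?_ h
    rintro _ ⟨_, ⟨μ, hμ, rfl⟩, _, ⟨ν, hν, rfl⟩, rfl⟩
    refine ⟨μ * ν, ?_, map_mul _ _ _⟩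
    simp only [Set.mem_ofPred_eq] at hμ hν ⊢
    rw [FreeMonoid.length_mul]
    omega)

theorem exists_elt {w : Alg F} (hw : w ∈ aug F) : ∃ (m : ℕ) (c : I m → F), w = elt c := by
  classical
  have key : ∃ m, ∀ m', m ≤ m' → ∃ c : I m' → F, w = elt c := by
    have hw' : w ∈ Submodule.span F (o F '' {μ | 0 < μ.length}) := hw
    clear hw
    induction hw' using Submodule.span_induction with
    | mem x hx =>
      obtain ⟨μ, hμ, rfl⟩ := hx
      refine ⟨μ.length, fun m' hm' => ⟨Pi.single ⟨μ, hμ, hm'⟩ 1, ?_⟩⟩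
      unfold elt
      rw [Finset.sum_eq_single ⟨μ, hμ, hm'⟩]
      · simp
      · intro b _ hb
        simp [hb]
      · simp
    | zero => exact ⟨0, fun m' _ => ⟨0, by simp [elt]⟩⟩
    | add x y _ _ hx hy =>
      obtain ⟨m, hm⟩ := hx
      obtain ⟨n, hn⟩ := hy
      refine ⟨max m n, fun m' hm' => ?_⟩
      obtain ⟨c, rfl⟩ := hm m' (le_of_max_le_left hm')
      obtain ⟨d, rfl⟩ := hn m' (le_of_max_le_right hm')
      exact ⟨c + d, by simp [elt, add_smul, Finset.sum_add_distrib]⟩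
    | smul a x _ hx =>
      obtain ⟨m, hm⟩ := hx
      refine ⟨m, fun m' hm' => ?_⟩
      obtain ⟨c, rfl⟩ := hm m' hm'
      exact ⟨a • c, by simp [elt, Finset.smul_sum, smul_smul]⟩
  obtain ⟨m, hm⟩ := key
  exact ⟨m, hm m le_rfl⟩

theorem exists_nil (F : Type u) [Field F] (T : ℕ → W → ℕ) :
    ∃ (Q : Type u) (_ : Ring Q) (_ : Algebra F Q) (N : NonUnitalSubalgebra F Q) (g : Bool → Q),
      Module.rank F N ≤ Cardinal.aleph0 ∧ (∀ x ∈ N, IsNilpotent x) ∧ (∀ i, g i ∈ N) ∧
      ∀ k, ∃ z : W, z ≠ 1 ∧ FreeMonoid.lift g z ^ T k z ≠ 0 := by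
  let π : Alg F →ₐ[F] Alg F ⧸ ideal F T := Ideal.Quotient.mkₐ F _
  refine ⟨Alg F ⧸ ideal F T, inferInstance, inferInstance,
    (aug F).map (π : Alg F →ₙₐ[F] Alg F ⧸ ideal F T), fun i => π (o F (FreeMonoid.of i)),
    ?_, ?_, ?_, ?_⟩
  · have h1 : Module.rank F (Alg F) ≤ Cardinal.aleph0 := by
      have := (MonoidAlgebra.basis W F).mk_eq_rank
      rw [Cardinal.lift_uzero] at this
      rw [← this, Cardinal.lift_le_aleph0, Cardinal.mk_le_aleph0_iff]
      exact inferInstanceAs (Countable (List Bool))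
    have h2 : Module.rank F (Alg F ⧸ ideal F T) ≤ Module.rank F (Alg F) :=
      LinearMap.rank_le_of_surjective π.toLinearMap (Ideal.Quotient.mkₐ_surjective F _)
    have h3 : ∀ N : NonUnitalSubalgebra F (Alg F ⧸ ideal F T),
        Module.rank F N ≤ Module.rank F (Alg F ⧸ ideal F T) :=
      fun N => Submodule.rank_le N.toSubmodule
    exact ((h3 _).trans h2).trans h1
  · rintro _ ⟨w, hw, rfl⟩
    obtain ⟨m, c, rfl⟩ := exists_elt hw
    refine ⟨2 * (lev F T (m + 1)).N, ?_⟩
    show π (elt c) ^ _ = 0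
    rw [← map_pow]
    exact Ideal.Quotient.eq_zero_iff_mem.mpr (elt_pow_mem T c)
  · intro i
    exact ⟨o F (FreeMonoid.of i), Submodule.subset_span ⟨_, (one_pos : 0 < 1), rfl⟩, rfl⟩
  · intro k
    refine ⟨(lev F T k).e true, ?_, ?_⟩
    · intro h
      have h1 := (lev F T k).he true
      have h2 := (lev F T k).pos
      rw [h, FreeMonoid.length_one] at h1
      omega
    · have h1 : FreeMonoid.lift (fun i => π (o F (FreeMonoid.of i))) =
          (π : Alg F →* Alg F ⧸ ideal F T).comp (o F) := FreeMonoid.hom_eq (fun _ => rfl)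
      rw [h1]
      show π (o F _) ^ _ ≠ 0
      rw [← map_pow]
      exact fun h => pow_not_mem T k (Ideal.Quotient.eq_zero_iff_mem.mp h)

end Pool.Agent.H499Z.Nil
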