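import Pool.Agent.H499Z.NilB

/-!
No nil algebra of countable dimension maps onto every nil algebra of countable dimension.
-/

set_option autoImplicit false

namespace Pool.Agent.H499Z.Nil

open Polynomial

universe u v

variable {F : Type u} [Field F]

def LinePoly {V : Type v} [AddCommGroup V] [Module F V] (f : V → F) : Prop :=
  ∀ p q : V, ∃ P : F[X], ∀ s : F, f (p + s • q) = P.eval s

theorem common_nonzero [Uncountable F] {V : Type v} [AddCommGroup V] [Module F V] (S : Finset V)
    (f : ℕ → V → F) (hf : ∀ t, LinePoly (f t))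
    (h : ∀ t, ∃ v ∈ Submodule.span F (S : Set V), f t v ≠ 0) :
    ∃ v ∈ Submodule.span F (S : Set V), ∀ t, f t v ≠ 0 := by
  classical
  induction S using Finset.induction_on generalizing f with
  | empty =>
    refine ⟨0, zero_mem _, fun t => ?_⟩
    obtain ⟨v, hv, h1⟩ := h t
    simp only [Finset.coe_empty, Submodule.span_empty, Submodule.mem_bot] at hv
    rwa [hv] at h1
  | insert a S _ ih =>
    have h1 : ∀ t, ∃ c : F, ∃ v ∈ Submodule.span F (S : Set V), f t (v + c • a) ≠ 0 := by
      intro t
      obtain ⟨v, hv, h1⟩ := h t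
      rw [Finset.coe_insert, Submodule.mem_span_insert] at hv
      obtain ⟨c, w, hw, rfl⟩ := hv
      exact ⟨c, w, hw, by rwa [add_comm]⟩
    choose c hc using h1
    obtain ⟨w, hw, h2⟩ := ih (fun t v => f t (v + c t • a)) (fun t p q => by
      obtain ⟨P, hP⟩ := hf t (p + c t • a) q
      exact ⟨P, fun s => by rw [← hP, add_right_comm]⟩) hc
    choose P hP using fun t => hf t w a
    have h3 : (⋃ t, {s | (P t).IsRoot s}).Countable := by
      refine Set.countable_iUnion (fun t => ((P t).finite_setOfPred_isRoot ?_).countable)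
      intro h0
      apply h2 t
      rw [hP, h0, eval_zero]
    obtain ⟨s, hs⟩ : ∃ s, s ∉ ⋃ t, {s | (P t).IsRoot s} := by
      by_contra hc'
      push Not at hc'
      exact Set.not_countable_univ (h3.mono (fun s _ => hc' s))
    refine ⟨w + s • a, ?_, fun t h0 => hs (Set.mem_iUnion.mpr ⟨t, ?_⟩)⟩
    · rw [Finset.coe_insert]
      exact add_mem (Submodule.span_mono (Set.subset_insert _ _) hw)
        (Submodule.smul_mem _ _ (Submodule.subset_span (Set.mem_insert _ _)))
    · rw [hP] at h0
      exact h0

section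

variable {A : Type v} [NonUnitalRing A] [Module F A] [IsScalarTower F A A] [SMulCommClass F A A]

noncomputable def wd (F : Type u) [Field F] [Module F A] [IsScalarTower F A A]
    [SMulCommClass F A A] (g : Bool → A) : W →* Unitization F A :=
  FreeMonoid.lift (fun i => (g i : Unitization F A))

theorem wd_nil (hnil : ∀ a : A, ∃ n : ℕ, (fun x : A => a * x)^[n] a = 0) (g : Bool → A) (z : W)
    (hz : z ≠ 1) : IsNilpotent (wd F g z) := by
  have h1 : ∀ z : W, z = 1 ∨ ∃ a : A, wd F g z = (a : Unitization F A) := by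
    intro z
    induction z using FreeMonoid.inductionOn' with
    | one => exact Or.inl rfl
    | of_mul i z ih =>
      right
      rcases ih with rfl | ⟨a, ha⟩
      · exact ⟨g i, by simp [wd]⟩
      · refine ⟨g i * a, ?_⟩
        rw [map_mul, ha, Unitization.inr_mul]
        rfl
  obtain ⟨a, ha⟩ := (h1 z).resolve_left hz
  obtain ⟨n, hn⟩ := hnil a
  have h2 : ∀ n : ℕ, (a : Unitization F A) ^ (n + 1) =
      (((fun x : A => a * x)^[n] a : A) : Unitization F A) := by
    intro n
    induction n with
    | zero => simp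
    | succ n ih => rw [pow_succ', ih, Function.iterate_succ_apply', Unitization.inr_mul]
  exact ⟨n + 1, by rw [ha, h2, hn, Unitization.inr_zero]⟩

theorem linePoly_wd (l : Unitization F A →ₗ[F] F) (z : W) (t : ℕ) :
    LinePoly (fun g : Bool → A => l (wd F g z ^ t)) := by
  intro p q
  let ev : F → (Unitization F A)[X] →+* Unitization F A := fun s =>
    eval₂RingHom' (RingHom.id _) (algebraMap F _ s) (fun a => (Algebra.commutes s a).symm)
  have h1 : ∀ Q : (Unitization F A)[X], ∃ P : F[X], ∀ s, l (ev s Q) = P.eval s := by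
    intro Q
    induction Q using Polynomial.induction_on' with
    | add a b ha hb =>
      obtain ⟨P, hP⟩ := ha
      obtain ⟨P', hP'⟩ := hb
      exact ⟨P + P', fun s => by rw [map_add, map_add, hP, hP', eval_add]⟩
    | monomial n a =>
      refine ⟨monomial n (l a), fun s => ?_⟩
      have : ev s (monomial n a) = s ^ n • a := by
        simp only [ev, eval₂RingHom'_apply, eval₂_monomial, RingHom.id_apply]
        rw [← map_pow, ← Algebra.commutes, ← Algebra.smul_def]
      rw [this, map_smul, eval_monomial, smul_eq_mul, mul_comm]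
  obtain ⟨P, hP⟩ := h1 (FreeMonoid.lift (fun i => C (p i : Unitization F A) +
    C (q i : Unitization F A) * X) z ^ t)
  refine ⟨P, fun s => ?_⟩
  have h3 : wd F (p + s • q) z = ev s (FreeMonoid.lift (fun i => C (p i : Unitization F A) +
      C (q i : Unitization F A) * X) z) := by
    have h2 := FreeMonoid.hom_map_lift (ev s : (Unitization F A)[X] →* Unitization F A)
      (fun i => C (p i : Unitization F A) + C (q i : Unitization F A) * X) z
    refine Eq.trans ?_ h2.symm
    unfold wd
    congr 2
    funext i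
    simp only [ev, Function.comp_apply, MonoidHom.coe_coe, map_add, map_mul, eval₂RingHom'_apply,
      eval₂_C, eval₂_X, RingHom.id_apply, Pi.add_apply, Pi.smul_apply, Unitization.inr_add,
      Unitization.inr_smul]
    rw [← Algebra.commutes, ← Algebra.smul_def]
  show l (wd F (p + s • q) z ^ t) = _
  rw [← hP, map_pow (ev s), h3]

theorem exists_bound (hnil : ∀ a : A, ∃ n : ℕ, (fun x : A => a * x)^[n] a = 0)
    (hrank : Module.rank F A ≤ Cardinal.aleph0) :
    ∃ T : ℕ → W → ℕ, ∀ g : Bool → A, ∃ k, ∀ z : W, z ≠ 1 → wd F g z ^ T k z = 0 := by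
  classical
  let b := Module.Basis.ofVectorSpace F A
  have hι : Countable (Module.Basis.ofVectorSpaceIndex F A) := by
    rw [← Cardinal.mk_le_aleph0_iff, b.mk_eq_rank'']
    exact hrank
  rcases (em (Countable F)).imp_right not_countable_iff.mp with hF | hF
  · have hA : Countable A := b.repr.toEquiv.countable_iff.mpr inferInstance
    obtain ⟨e, he⟩ := exists_surjective_nat (Bool → A)
    have h1 : ∀ (k : ℕ) (z : W), ∃ t, z ≠ 1 → wd F (e k) z ^ t = 0 := by
      intro k z
      by_cases hz : z = 1
      · exact ⟨0, fun h => absurd hz h⟩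
      · obtain ⟨t, ht⟩ := wd_nil (F := F) hnil (e k) z hz
        exact ⟨t, fun _ => ht⟩
    choose T hT using h1
    refine ⟨T, fun g => ?_⟩
    obtain ⟨k, rfl⟩ := he g
    exact ⟨k, hT k⟩
  · let B := Pi.basis (fun _ : Bool => b)
    obtain ⟨e, he⟩ := exists_surjective_nat
      (Finset (Σ _ : Bool, Module.Basis.ofVectorSpaceIndex F A))
    have h1 : ∀ (k : ℕ) (z : W), ∃ t, z ≠ 1 →
        ∀ g ∈ Submodule.span F (((e k).image B : Finset (Bool → A)) : Set (Bool → A)),
          wd F g z ^ t = 0 := by
      intro k z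
      by_cases hz : z = 1
      · exact ⟨0, fun h => absurd hz h⟩
      by_contra hc
      push Not at hc
      have h2 : ∀ t, ∃ l : Unitization F A →ₗ[F] F,
          ∃ g ∈ Submodule.span F (((e k).image B : Finset (Bool → A)) : Set (Bool → A)),
            l (wd F g z ^ t) ≠ 0 := by
        intro t
        obtain ⟨_, g, hg, h3⟩ := hc t
        obtain ⟨l, hl⟩ := Module.Projective.exists_dual_ne_zero F h3
        exact ⟨l, g, hg, hl⟩
      choose l hl using h2
      obtain ⟨g, _, hg⟩ := common_nonzero _ (fun t g => l t (wd F g z ^ t))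
        (fun t => linePoly_wd (l t) z t) hl
      obtain ⟨t, ht⟩ := wd_nil (F := F) hnil g z hz
      exact hg t (by rw [ht, map_zero])
    choose T hT using h1
    refine ⟨T, fun g => ?_⟩
    obtain ⟨k, hk⟩ := he (B.repr g).support
    refine ⟨k, fun z hz => hT k z hz g ?_⟩
    rw [hk, Finset.coe_image]
    exact B.mem_span_repr_support g

theorem not_universal (hnil : ∀ a : A, ∃ n : ℕ, (fun x : A => a * x)^[n] a = 0)
    (hrank : Module.rank F A ≤ Cardinal.aleph0) :
    ∃ (B : Type u) (_ : NonUnitalRing B) (_ : Module F B) (_ : IsScalarTower F B B)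
      (_ : SMulCommClass F B B), (∀ b : B, ∃ n : ℕ, (fun x : B => b * x)^[n] b = 0) ∧
      Module.rank F B ≤ Cardinal.aleph0 ∧ ∀ f : A →ₙₐ[F] B, ¬ Function.Surjective f := by
  obtain ⟨T, hT⟩ := exists_bound (F := F) hnil hrank
  obtain ⟨Q, _, _, N, g, h1, h2, h3, h4⟩ := exists_nil F T
  refine ⟨N, inferInstance, inferInstance, inferInstance, inferInstance, ?_, h1, ?_⟩
  · intro b
    obtain ⟨n, hn⟩ := h2 b.1 b.2
    have h5 : ∀ n : ℕ, (((fun x : N => b * x)^[n] b : N) : Q) = b.1 ^ (n + 1) := by
      intro n
      induction n with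
      | zero => simp
      | succ n ih =>
        rw [Function.iterate_succ_apply', pow_succ', ← ih]
        rfl
    exact ⟨n, Subtype.ext (by rw [h5, pow_succ, hn, zero_mul]; rfl)⟩
  · intro f hf
    choose a ha using fun i => hf ⟨g i, h3 i⟩
    obtain ⟨k, hk⟩ := hT a
    obtain ⟨z, hz, hz'⟩ := h4 k
    let Φ : Unitization F A →ₐ[F] Q :=
      Unitization.lift ((NonUnitalSubalgebraClass.subtype N).comp f)
    have h6 : FreeMonoid.lift g = (Φ : Unitization F A →* Q).comp (wd F a) := by
      refine FreeMonoid.hom_eq (fun i => ?_)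
      simp [wd, Φ, ha]
    apply hz'
    rw [h6]
    show Φ (wd F a z) ^ _ = 0
    rw [← map_pow, hk z hz, map_zero]

end

end Pool.Agent.H499Z.Nil
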