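import Mathlib

/-!
A two-generated solvable group that is not finitely invariably generated.
-/

set_option autoImplicit false

namespace Pool.Agent.H499Z.NotFIG

abbrev R : Type := ZMod 3

@[ext]
structure Aff where
  k : ℤ
  e : ℕ → ℤ → Rˣ
  d : ℕ → ℤ → R

instance : Mul Aff := ⟨fun g h => ⟨g.k + h.k, fun n i => g.e n i * h.e n (i - g.k),
  fun n i => (g.e n i : R) * h.d n (i - g.k) + g.d n i⟩⟩

instance : One Aff := ⟨⟨0, fun _ _ => 1, fun _ _ => 0⟩⟩

instance : Inv Aff := ⟨fun g => ⟨-g.k, fun n i => (g.e n (i + g.k))⁻¹,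
  fun n i => -(((g.e n (i + g.k))⁻¹ : Rˣ) : R) * g.d n (i + g.k)⟩⟩

@[simp] theorem mul_k (g h : Aff) : (g * h).k = g.k + h.k := rfl
@[simp] theorem mul_e (g h : Aff) (n : ℕ) (i : ℤ) :
    (g * h).e n i = g.e n i * h.e n (i - g.k) := rfl
@[simp] theorem mul_d (g h : Aff) (n : ℕ) (i : ℤ) :
    (g * h).d n i = (g.e n i : R) * h.d n (i - g.k) + g.d n i := rfl
@[simp] theorem one_k : (1 : Aff).k = 0 := rfl
@[simp] theorem one_e (n : ℕ) (i : ℤ) : (1 : Aff).e n i = 1 := rfl
@[simp] theorem one_d (n : ℕ) (i : ℤ) : (1 : Aff).d n i = 0 := rfl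
@[simp] theorem inv_k (g : Aff) : (g⁻¹).k = -g.k := rfl
@[simp] theorem inv_e (g : Aff) (n : ℕ) (i : ℤ) : (g⁻¹).e n i = (g.e n (i + g.k))⁻¹ := rfl
@[simp] theorem inv_d (g : Aff) (n : ℕ) (i : ℤ) :
    (g⁻¹).d n i = -(((g.e n (i + g.k))⁻¹ : Rˣ) : R) * g.d n (i + g.k) := rfl

instance : Group Aff := Group.ofLeftAxioms
  (fun a b c => by
    ext n i
    · simp [add_assoc]
    · simp [mul_assoc, sub_sub]
    · simp only [mul_d, mul_e, mul_k, Units.val_mul, sub_sub]
      ring)
  (fun a => by ext n i <;> simp)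
  (fun a => by
    ext n i
    · simp
    · simp only [mul_e, inv_e, inv_k, sub_neg_eq_add, inv_mul_cancel, one_e]
    · simp only [mul_d, inv_e, inv_d, inv_k, sub_neg_eq_add, one_d]
      ring)

def N1 : Subgroup Aff where
  carrier := {g | g.k = 0}
  mul_mem' := by
    intro a b ha hb
    simp only [Set.mem_ofPred_eq] at ha hb ⊢
    simp [ha, hb]
  one_mem' := rfl
  inv_mem' := by
    intro a ha
    simp only [Set.mem_ofPred_eq] at ha ⊢
    simp [ha]

def N2 : Subgroup Aff where
  carrier := {g | g.k = 0 ∧ ∀ n i, g.e n i = 1}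
  mul_mem' := by
    intro a b ha hb
    simp only [Set.mem_ofPred_eq] at ha hb ⊢
    simp [ha, hb]
  one_mem' := ⟨rfl, fun _ _ => rfl⟩
  inv_mem' := by
    intro a ha
    simp only [Set.mem_ofPred_eq] at ha ⊢
    simp [ha]

instance : Group.IsSolvable Aff := by
  have h1 : derivedSeries Aff 1 ≤ N1 := by
    rw [derivedSeries_succ, Subgroup.commutator_le]
    intro g _ h _
    show (g * h * g⁻¹ * h⁻¹).k = 0
    simp
  have h2 : derivedSeries Aff 2 ≤ N2 := by
    rw [derivedSeries_succ, Subgroup.commutator_le]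
    intro g hg h hh
    have hg' : g.k = 0 := h1 hg
    have hh' : h.k = 0 := h1 hh
    refine ⟨?_, fun n i => ?_⟩
    · show (g * h * g⁻¹ * h⁻¹).k = 0
      simp
    · show (g * h * g⁻¹ * h⁻¹).e n i = 1
      simp [hg', hh', mul_comm]
  refine ⟨⟨3, ?_⟩⟩
  rw [derivedSeries_succ, eq_bot_iff, Subgroup.commutator_le]
  intro g hg h hh
  obtain ⟨hg1, hg2⟩ := h2 hg
  obtain ⟨hh1, hh2⟩ := h2 hh
  rw [Subgroup.mem_bot]
  show g * h * g⁻¹ * h⁻¹ = 1
  ext n i
  · simp
  · simp [hg2, hh2]
  · simp [hg1, hh1, hg2, hh2]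

def act (n : ℕ) (g : Aff) (x : ℤ → R) : ℤ → R := fun i => (g.e n i : R) * x (i - g.k) + g.d n i

theorem act_mul (n : ℕ) (g h : Aff) (x : ℤ → R) : act n (g * h) x = act n g (act n h x) := by
  funext i
  simp only [act, mul_d, mul_e, mul_k, Units.val_mul, sub_sub]
  ring

theorem act_one (n : ℕ) (x : ℤ → R) : act n 1 x = x := by
  funext i
  simp [act]

theorem act_inv_act (n : ℕ) (g : Aff) (x : ℤ → R) : act n g⁻¹ (act n g x) = x := by
  rw [← act_mul, inv_mul_cancel, act_one]

def M (n : ℕ) : ℤ := ((2 * n + 1).factorial : ℕ)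

theorem M_gt (n : ℕ) : 2 * (n : ℤ) < M n := by
  have := Nat.self_le_factorial (2 * n + 1)
  unfold M
  omega

theorem dvd_M (n : ℕ) (k : ℤ) (h0 : 0 < k) (hk : k ≤ n) : k ∣ M n := by
  obtain ⟨m, rfl⟩ := Int.eq_ofNat_of_zero_le h0.le
  unfold M
  exact_mod_cast Nat.dvd_factorial (by exact_mod_cast h0) (by omega)

def a : Aff := ⟨0, fun n i => if i = 0 ∨ i = M n ∨ i = 2 * M n then -1 else 1,
  fun n i => if i = M n ∨ i = 2 * M n then 2 else 0⟩

def sh (j : ℤ) : Aff := ⟨j, fun _ _ => 1, fun _ _ => 0⟩

theorem sh_eq (j : ℤ) : sh j = (sh 1) ^ j := by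
  have h1 : ∀ i j : ℤ, sh (i + j) = sh i * sh j := by
    intro i j
    ext <;> simp [sh]
  let f : Multiplicative ℤ →* Aff := MonoidHom.mk' (fun x => sh x.toAdd) (fun x y => h1 _ _)
  have := map_zpow f (Multiplicative.ofAdd 1) j
  simpa [f, ← ofAdd_zsmul] using this

def GG : Subgroup Aff := Subgroup.closure {a, sh 1}

theorem a_mem : a ∈ GG := Subgroup.subset_closure (by simp)

theorem sh_mem (j : ℤ) : sh j ∈ GG := by
  rw [sh_eq]
  exact zpow_mem (Subgroup.subset_closure (by simp)) j

def C (n : ℕ) (i : ℤ) : R := if i ≤ n then 0 else 1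

def NF (g : Aff) (l : ℕ) (σ : ℤ → Rˣ) : Prop :=
  |g.k| ≤ l ∧ (∀ i, (l : ℤ) < |i| → σ i = 1) ∧ ∀ n, l ≤ n → ∀ i,
    g.e n i = σ i * σ (i - M n) * σ (i - 2 * M n) ∧ g.d n i = C n i * (1 - (g.e n i : R))

theorem NF.shift {g : Aff} {l : ℕ} {σ : ℤ → Rˣ} (h : NF g l σ) (n : ℕ) (i j : ℤ)
    (hn : (l : ℤ) + |j| ≤ n) : C n (i + j) * (1 - (g.e n i : R)) = C n i * (1 - (g.e n i : R)) := by
  have hj : 0 ≤ |j| := abs_nonneg j
  have hM := M_gt n
  by_cases he : g.e n i = 1
  · simp [he]
  · have h1 := (h.2.2 n (by omega) i).1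
    have h2 : |i| ≤ l ∨ |i - M n| ≤ l ∨ |i - 2 * M n| ≤ l := by
      by_contra hc
      push Not at hc
      apply he
      rw [h1, h.2.1 _ hc.1, h.2.1 _ hc.2.1, h.2.1 _ hc.2.2]
      simp
    have h3 : C n (i + j) = C n i := by
      have hj1 := le_abs_self j
      have hj2 := neg_abs_le j
      unfold C
      rcases h2 with h2 | h2 | h2 <;> rw [abs_le] at h2
      · rw [if_pos (by omega), if_pos (by omega)]
      · rw [if_neg (by omega), if_neg (by omega)]
      · rw [if_neg (by omega), if_neg (by omega)]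
    rw [h3]

theorem exists_NF (g : Aff) (hg : g ∈ GG) : ∃ l σ, NF g l σ := by
  induction hg using Subgroup.closure_induction with
  | mem x hx =>
    rcases hx with rfl | rfl
    · refine ⟨0, fun i => if i = 0 then -1 else 1, by simp [a], ?_, ?_⟩
      · intro i hi
        refine if_neg ?_
        rintro rfl
        simp at hi
      · intro n _ i
        have hM := M_gt n
        simp only [a, C]
        by_cases h0 : i = 0
        · subst h0
          have h3 : ¬ M n = 0 := by omega
          have h4 : ¬ 0 = M n := by omega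
          simp [h3, h4]
        · by_cases h1 : i = M n
          · subst h1
            have h3 : ¬ M n - 2 * M n = 0 := by omega
            have h4 : ¬ M n ≤ n := by omega
            simp [h0, h3, h4]
            decide
          · by_cases h2 : i = 2 * M n
            · subst h2
              have h3 : ¬ 2 * M n - M n = 0 := by omega
              have h4 : ¬ 2 * M n ≤ n := by omega
              simp [h0, h3, h4]
              decide
            · have h3 : ¬ i - M n = 0 := by omega
              have h4 : ¬ i - 2 * M n = 0 := by omega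
              simp [h0, h1, h2, h3, h4]
    · exact ⟨1, fun _ => 1, by simp [sh], by simp, fun n _ i => by simp [sh]⟩
  | one => exact ⟨0, fun _ => 1, by simp, by simp, fun n _ i => by simp⟩
  | mul x y _ _ hx hy =>
    obtain ⟨l, σ, h⟩ := hx
    obtain ⟨l', σ', h'⟩ := hy
    have hk := h.1
    have hk' := h'.1
    refine ⟨l + l', fun i => σ i * σ' (i - x.k), ?_, ?_, ?_⟩
    · rw [mul_k]
      push_cast
      exact (abs_add_le _ _).trans (add_le_add hk hk')
    · intro i hi
      push_cast at hi
      have h1 : (l' : ℤ) < |i - x.k| := by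
        have := abs_sub_abs_le_abs_sub i x.k
        omega
      beta_reduce
      rw [h.2.1 i (by omega), h'.2.1 _ h1, one_mul]
    · intro n hn i
      have h1 := h.2.2 n (by omega) i
      have h2 := h'.2.2 n (by omega) (i - x.k)
      have h3 := h'.shift n (i - x.k) x.k (by omega)
      rw [sub_add_cancel] at h3
      constructor
      · rw [mul_e, h1.1, h2.1, sub_right_comm i x.k, sub_right_comm i x.k]
        simp only [mul_left_comm, mul_assoc]
      · rw [mul_d, mul_e, h1.2, h2.2, ← h3, Units.val_mul]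
        ring
  | inv x _ hx =>
    obtain ⟨l, σ, h⟩ := hx
    have hk := h.1
    refine ⟨2 * l, fun i => (σ (i + x.k))⁻¹, ?_, ?_, ?_⟩
    · rw [inv_k, abs_neg]
      push_cast
      omega
    · intro i hi
      push_cast at hi
      have h1 : (l : ℤ) < |i + x.k| := by
        have := abs_sub_abs_le_abs_add i x.k
        omega
      beta_reduce
      rw [h.2.1 _ h1, inv_one]
    · intro n hn i
      have h1 := h.2.2 n (by omega) (i + x.k)
      have h3 := h.shift n (i + x.k) (-x.k) (by rw [abs_neg]; omega)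
      rw [add_neg_cancel_right] at h3
      constructor
      · rw [inv_e, h1.1, add_sub_right_comm i x.k, add_sub_right_comm i x.k]
        simp only [mul_inv]
      · rw [inv_d, inv_e, h1.2, ← h3]
        have hu : (((x.e n (i + x.k))⁻¹ : Rˣ) : R) * (x.e n (i + x.k) : R) = 1 :=
          Units.inv_mul _
        linear_combination (C n i) * hu

theorem unit_sq (u : Rˣ) : u * u = 1 := by
  revert u
  decide

theorem fixed_of_nonneg (g : Aff) (l : ℕ) (σ : ℤ → Rˣ) (h : NF g l σ) (hk : 0 ≤ g.k) (n : ℕ)
    (hn : l ≤ n) : ∃ x : ℤ → R, (Function.support x).Finite ∧ act n g x = x := by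
  classical
  have hM := M_gt n
  rcases hk.eq_or_lt with hk | hk
  · refine ⟨fun i => if n < i ∧ i ≤ 2 * M n + n then 1 else 0, ?_, ?_⟩
    · refine (Set.finite_Icc (n : ℤ) (2 * M n + n)).subset ?_
      intro i hi
      by_contra hc
      apply hi
      simp only [Set.mem_Icc] at hc
      exact if_neg (by omega)
    · funext i
      obtain ⟨h1, h2⟩ := h.2.2 n hn i
      simp only [act, ← hk, sub_zero, h2, C]
      by_cases h3 : i ≤ n
      · rw [if_pos h3, if_neg (by omega)]; simp
      · rw [if_neg h3]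
        by_cases h4 : i ≤ 2 * M n + n
        · rw [if_pos ⟨by omega, h4⟩]; simp
        · rw [if_neg (by omega), h1, h.2.1 i (by rw [lt_abs]; omega),
            h.2.1 (i - M n) (by rw [lt_abs]; omega), h.2.1 (i - 2 * M n) (by rw [lt_abs]; omega)]
          simp
  · let τ : ℤ → Rˣ := fun i =>
      ∏ r ∈ (Finset.Icc (-(l : ℤ)) l).filter (fun r => r ≤ i ∧ g.k ∣ i - r), σ r
    have hτ1 : ∀ i, τ i = σ i * τ (i - g.k) := by
      intro i
      have hiff : ∀ r, (r ≤ i ∧ g.k ∣ i - r) ↔ (r = i ∨ (r ≤ i - g.k ∧ g.k ∣ i - g.k - r)) := by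
        intro r
        constructor
        · rintro ⟨h1, h2⟩
          rcases h1.eq_or_lt with h1 | h1
          · exact Or.inl h1
          · right
            have := Int.le_of_dvd (by omega) h2
            refine ⟨by omega, ?_⟩
            rw [sub_right_comm]
            exact dvd_sub h2 dvd_rfl
        · rintro (rfl | ⟨h1, h2⟩)
          · simp
          · refine ⟨by omega, ?_⟩
            have := dvd_add h2 (dvd_refl g.k)
            rwa [show i - g.k - r + g.k = i - r by ring] at this
      by_cases hi : i ∈ Finset.Icc (-(l : ℤ)) l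
      · have : (Finset.Icc (-(l : ℤ)) l).filter (fun r => r ≤ i ∧ g.k ∣ i - r) =
            insert i ((Finset.Icc (-(l : ℤ)) l).filter
              (fun r => r ≤ i - g.k ∧ g.k ∣ i - g.k - r)) := by
          ext r
          simp only [Finset.mem_filter, Finset.mem_insert, hiff]
          constructor
          · rintro ⟨h1, h2 | h2⟩
            · exact Or.inl h2
            · exact Or.inr ⟨h1, h2⟩
          · rintro (rfl | ⟨h1, h2⟩)
            · exact ⟨hi, Or.inl rfl⟩
            · exact ⟨h1, Or.inr h2⟩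
        simp only [τ]
        rw [this, Finset.prod_insert]
        simp only [Finset.mem_filter, not_and]
        intro _ h1
        omega
      · have h1 : σ i = 1 := by
          apply h.2.1
          rw [Finset.mem_Icc] at hi
          rw [lt_abs]
          omega
        rw [h1, one_mul]
        simp only [τ]
        congr 1
        ext r
        simp only [Finset.mem_filter, hiff]
        constructor
        · rintro ⟨h3, rfl | h2⟩
          · exact absurd h3 hi
          · exact ⟨h3, h2⟩
        · rintro ⟨h1, h2⟩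
          exact ⟨h1, Or.inr h2⟩
    have hτ2 : ∀ i, i < -(l : ℤ) → τ i = 1 := by
      intro i hi
      simp only [τ]
      rw [Finset.filter_false_of_mem, Finset.prod_empty]
      intro r hr
      rw [Finset.mem_Icc] at hr
      omega
    have hτ3 : ∀ i, (l : ℤ) ≤ i - 2 * M n → τ (i - M n) = τ (i - 2 * M n) := by
      intro i hi
      have hd : g.k ∣ M n := dvd_M n g.k hk (by have := h.1; rw [abs_le] at this; omega)
      simp only [τ]
      congr 1
      apply Finset.filter_congr
      intro r hr
      rw [Finset.mem_Icc] at hr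
      have h1 : i - M n - r = (i - 2 * M n - r) + M n := by ring
      rw [h1, dvd_add_left hd]
      constructor
      · rintro ⟨_, h2⟩
        exact ⟨by omega, h2⟩
      · rintro ⟨_, h2⟩
        exact ⟨by omega, h2⟩
    refine ⟨fun i => 1 - ((τ (i - M n) * τ (i - 2 * M n) : Rˣ) : R), ?_, ?_⟩
    · refine (Set.finite_Icc (n : ℤ) (2 * M n + n)).subset ?_
      intro i hi
      by_contra hc
      apply hi
      simp only [Set.mem_Icc, not_and_or, not_le] at hc
      rcases hc with hc | hc
      · simp [hτ2 (i - M n) (by omega), hτ2 (i - 2 * M n) (by omega)]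
      · beta_reduce
        rw [hτ3 i (by omega), unit_sq]; simp
    · funext i
      obtain ⟨h1, h2⟩ := h.2.2 n hn i
      simp only [act, h2, C]
      by_cases h3 : i ≤ n
      · rw [if_pos h3, hτ2 (i - M n) (by omega), hτ2 (i - 2 * M n) (by omega),
          hτ2 (i - g.k - M n) (by omega), hτ2 (i - g.k - 2 * M n) (by omega)]
        simp
      · rw [if_neg h3, h1, h.2.1 i (by rw [lt_abs]; omega), hτ1 (i - M n), hτ1 (i - 2 * M n),
          sub_right_comm i g.k, sub_right_comm i g.k]
        simp only [Units.val_mul, one_mul]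
        ring

theorem exists_fixed (g : Aff) (hg : g ∈ GG) : ∃ l : ℕ, ∀ n, l ≤ n →
    ∃ x : ℤ → R, (Function.support x).Finite ∧ act n g x = x := by
  rcases le_total 0 g.k with hk | hk
  · obtain ⟨l, σ, h⟩ := exists_NF g hg
    exact ⟨l, fun n hn => fixed_of_nonneg g l σ h hk n hn⟩
  · obtain ⟨l, σ, h⟩ := exists_NF g⁻¹ (inv_mem hg)
    refine ⟨l, fun n hn => ?_⟩
    obtain ⟨x, hx, hx'⟩ := fixed_of_nonneg g⁻¹ l σ h (by simpa using hk) n hn
    refine ⟨x, hx, ?_⟩
    conv_lhs => rw [← hx']
    rw [← act_mul, mul_inv_cancel, act_one]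

theorem act_sh (n : ℕ) (j : ℤ) (x : ℤ → R) : act n (sh j) x = fun i => x (i - j) := by
  funext i
  simp [act, sh]

theorem exists_transl_single (n : ℕ) (j : ℤ) :
    ∃ g ∈ GG, ∀ y, act n g y = y + Pi.single j 1 := by
  have hM := M_gt n
  let b : Aff := a * (sh (M n) * a * sh (-M n))
  have hb : b ∈ GG := mul_mem a_mem (mul_mem (mul_mem (sh_mem _) a_mem) (sh_mem _))
  have h1 : ∀ y, act n (b * b) y = y + Pi.single (M n) 1 := by
    intro y
    funext i
    simp only [b, act_mul, act_sh]
    simp only [act, a, sub_zero, sub_neg_eq_add, sub_add_cancel, Pi.add_apply, Pi.single_apply]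
    by_cases h0 : i = 0
    · subst h0
      have h2 : ¬ (0 : ℤ) = M n := by omega
      have h3 : ¬ (0 : ℤ) = 2 * M n := by omega
      have h5 : ¬ (0 - M n = M n ∨ 0 - M n = 2 * M n) := by omega
      have h6 : ¬ M n = 0 := by omega
      simp only [h2, h3, h5]
      simp [h6]
    · by_cases h1 : i = M n
      · subst h1
        have h5 : ¬ (M n - M n = M n ∨ M n - M n = 2 * M n) := by omega
        simp only [h5]
        simp
        generalize y (M n) = z
        revert z
        decide
      · by_cases h2 : i = 2 * M n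
        · subst h2
          have h5 : 2 * M n - M n = M n := by omega
          simp only [h5, h1]
          simp
        · by_cases h3 : i = 3 * M n
          · subst h3
            have h5 : 3 * M n - M n = 2 * M n := by omega
            simp only [h5, h0, h1, h2]
            simp
          · have h4 : ¬ (i - M n = 0) := by omega
            have h5 : ¬ (i - M n = M n ∨ i - M n = 2 * M n) := by omega
            simp only [h0, h1, h2, h4, h5]
            simp
  refine ⟨sh (j - M n) * (b * b) * sh (M n - j),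
    mul_mem (mul_mem (sh_mem _) (mul_mem hb hb)) (sh_mem _), fun y => ?_⟩
  rw [act_mul, act_mul, h1, act_sh, act_sh]
  funext i
  simp only [Pi.add_apply, Pi.single_apply]
  congr 1
  · congr 1
    ring
  · congr 1
    apply propext
    omega

theorem exists_transl (n : ℕ) (x : ℤ → R) (hx : (Function.support x).Finite) :
    ∃ g ∈ GG, ∀ y, act n g y = y + x := by
  have key : ∀ f : ℤ →₀ R, ∃ g ∈ GG, ∀ y, act n g y = y + f := by
    intro f
    induction f using Finsupp.induction_linear with
    | zero => exact ⟨1, one_mem _, fun y => by simp [act_one]⟩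
    | add f f' hf hf' =>
      obtain ⟨g, hg, h⟩ := hf
      obtain ⟨g', hg', h'⟩ := hf'
      refine ⟨g' * g, mul_mem hg' hg, fun y => ?_⟩
      rw [act_mul, h, h', add_assoc]
      rfl
    | single j c =>
      obtain ⟨g, hg, h⟩ := exists_transl_single n j
      have hc : c = 0 ∨ c = 1 ∨ c = 1 + 1 := by revert c; decide
      rcases hc with rfl | rfl | rfl
      · exact ⟨1, one_mem _, fun y => by simp [act_one]⟩
      · exact ⟨g, hg, fun y => by rw [h, Finsupp.single_eq_pi_single]⟩
      · refine ⟨g * g, mul_mem hg hg, fun y => ?_⟩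
        rw [act_mul, h, h, add_assoc, Finsupp.single_eq_pi_single, Pi.single_add]
  exact key (Finsupp.ofSupportFinite x hx)

theorem GG_fg : Group.FG GG := by
  rw [Group.fg_iff_subgroup_fg]
  exact (Subgroup.fg_iff _).mpr ⟨{a, sh 1}, rfl, Set.toFinite _⟩

theorem not_fig (S : Finset GG) : ∃ g : GG → GG,
    Subgroup.closure ((fun s => (g s)⁻¹ * s * g s) '' (S : Set GG)) ≠ ⊤ := by
  have h1 := fun s : GG => exists_fixed s.1 s.2
  choose l hl using h1
  let n := S.sup l
  have h2 : ∀ s : GG, ∃ g : GG, s ∈ S → act n (g⁻¹ * s * g : GG).1 0 = 0 := by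
    intro s
    by_cases hs : s ∈ S
    · obtain ⟨x, hx, hx'⟩ := hl s n (Finset.le_sup hs)
      obtain ⟨g, hg, h⟩ := exists_transl n x hx
      refine ⟨⟨g, hg⟩, fun _ => ?_⟩
      have h3 : act n g 0 = x := by rw [h, zero_add]
      show act n (g⁻¹ * s.1 * g) 0 = 0
      rw [act_mul, act_mul, h3, hx', ← h3, act_inv_act]
    · exact ⟨1, fun h => absurd h hs⟩
  choose g hg using h2
  refine ⟨g, fun htop => ?_⟩
  let H : Subgroup GG :=
    { carrier := {h | act n h.1 0 = 0}
      mul_mem' := by
        intro u v hu hv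
        simp only [Set.mem_ofPred_eq] at hu hv ⊢
        rw [Subgroup.coe_mul, act_mul, hv, hu]
      one_mem' := act_one n 0
      inv_mem' := by
        intro u hu
        simp only [Set.mem_ofPred_eq] at hu ⊢
        conv_lhs => rw [← hu]
        exact act_inv_act n u.1 0 }
  have h4 : Subgroup.closure ((fun s => (g s)⁻¹ * s * g s) '' (S : Set GG)) ≤ H := by
    rw [Subgroup.closure_le]
    rintro _ ⟨s, hs, rfl⟩
    exact hg s hs
  obtain ⟨u, hu, h⟩ := exists_transl_single n 0
  have h5 : (⟨u, hu⟩ : GG) ∈ H := h4 (htop ▸ Subgroup.mem_top _)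
  have h6 : act n u 0 = 0 := h5
  rw [h, zero_add] at h6
  have := congrFun h6 0
  simp at this

end Pool.Agent.H499Z.NotFIG
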