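import Mathlib

/-!
`SL(2, ℝ)` has a proper subgroup meeting every conjugacy class.
-/

set_option autoImplicit false

namespace Pool.Agent.H499Z.SL2R

open Cardinal Polynomial Matrix MatrixGroups

theorem mk_closure_le {G : Type} [Group G] (s : Set G) :
    #(Subgroup.closure s) ≤ max #s ℵ₀ := by
  rcases s.eq_empty_or_nonempty with rfl | hs
  · rw [Subgroup.closure_empty]
    exact le_max_of_le_right (by simp)
  · have : Nonempty s := hs.to_subtype
    rw [FreeGroup.closure_eq_range, ← mk_freeGroup]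
    exact mk_range_le

theorem abstract {G : Type} [Group G] (κ : Cardinal) (hG : #G ≤ κ) (hκ : ℵ₀ < κ) (u : G)
    (H0 : Subgroup G) (h0 : #H0 < κ) (hu : u ∉ H0)
    (step : ∀ H : Subgroup G, #H < κ → H0 ≤ H → u ∉ H → ∀ c : G, ∃ x : G,
      u ∉ Subgroup.closure ((H : Set G) ∪ {x * c * x⁻¹})) :
    ∃ H : Subgroup G, u ∉ H ∧ ∀ c : G, ∃ x : G, x * c * x⁻¹ ∈ H := by
  classical
  obtain ⟨r, wo, hr⟩ := exists_ord_eq G
  let _ : LinearOrder G := linearOrderOfSTO r
  have hwf : WellFoundedLT G := ⟨wo.wf⟩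
  have hIio : ∀ i : G, #(Set.Iio i) < κ := fun i => (mk_Iio_lt i hr).trans_le hG
  let K : ∀ i : G, (∀ j, j < i → G) → Subgroup G := fun i p =>
    Subgroup.closure ((H0 : Set G) ∪ Set.range (fun j : Set.Iio i => p j.1 j.2))
  let F : ∀ i : G, (∀ j, j < i → G) → G := fun i p =>
    if h : ∃ x : G, u ∉ Subgroup.closure ((K i p : Set G) ∪ {x * i * x⁻¹}) then
      h.choose * i * h.choose⁻¹ else i
  let y : G → G := WellFounded.fix hwf.wf F
  have hy : ∀ i, y i = F i (fun j _ => y j) := fun i => WellFounded.fix_eq _ _ _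
  have hconj : ∀ i, ∃ x, y i = x * i * x⁻¹ := by
    intro i
    rw [hy]
    simp only [F]
    split_ifs with h
    · exact ⟨_, rfl⟩
    · exact ⟨1, by simp⟩
  let L : G → Subgroup G := fun i => Subgroup.closure ((H0 : Set G) ∪ y '' Set.Iic i)
  have hLmono : Monotone L := fun i j hij =>
    Subgroup.closure_mono (Set.union_subset_union_right _ (Set.image_mono (Set.Iic_subset_Iic.2 hij)))
  have hlim : ∀ T : Set G, ∀ z ∈ Subgroup.closure ((H0 : Set G) ∪ y '' T),
      z ∈ H0 ∨ ∃ j ∈ T, z ∈ L j := by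
    intro T z hz
    induction hz using Subgroup.closure_induction with
    | mem x hx =>
      rcases hx with hx | ⟨j, hj, rfl⟩
      · exact Or.inl hx
      · exact Or.inr ⟨j, hj, Subgroup.subset_closure (Or.inr ⟨j, Set.mem_Iic.mpr le_rfl, rfl⟩)⟩
    | one => exact Or.inl (one_mem _)
    | mul a b _ _ ha hb =>
      rcases ha with ha | ⟨j, hj, ha⟩ <;> rcases hb with hb | ⟨k, hk, hb⟩
      · exact Or.inl (mul_mem ha hb)
      · exact Or.inr ⟨k, hk, mul_mem (Subgroup.subset_closure (Or.inl ha)) hb⟩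
      · exact Or.inr ⟨j, hj, mul_mem ha (Subgroup.subset_closure (Or.inl hb))⟩
      · rcases le_total j k with h | h
        · exact Or.inr ⟨k, hk, mul_mem (hLmono h ha) hb⟩
        · exact Or.inr ⟨j, hj, mul_mem ha (hLmono h hb)⟩
    | inv a _ ha =>
      rcases ha with ha | ⟨j, hj, ha⟩
      · exact Or.inl (inv_mem ha)
      · exact Or.inr ⟨j, hj, inv_mem ha⟩
  have hL : ∀ i, u ∉ L i := by
    intro i
    induction i using hwf.wf.induction with
    | _ i ih =>
    have hK : K i (fun j _ => y j) = Subgroup.closure ((H0 : Set G) ∪ y '' Set.Iio i) := by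
      simp only [K]
      rw [Set.image_eq_range]
    have h1 : u ∉ K i (fun j _ => y j) := by
      rw [hK]
      intro h
      rcases hlim _ _ h with h | ⟨j, hj, h⟩
      · exact hu h
      · exact ih j hj h
    have h2 : #(K i (fun j _ => y j)) < κ := by
      rw [hK]
      refine (mk_closure_le _).trans_lt (max_lt ?_ hκ)
      refine (mk_union_le _ _).trans_lt (add_lt_of_lt hκ.le h0 ?_)
      exact mk_image_le.trans_lt (hIio i)
    have h3 := step _ h2 (fun z hz => Subgroup.subset_closure (Or.inl hz)) h1 i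
    have h4 : u ∉ Subgroup.closure ((K i (fun j _ => y j) : Set G) ∪ {y i}) := by
      rw [hy i]
      simp only [F]
      rw [dif_pos h3]
      exact h3.choose_spec
    intro h
    apply h4
    refine Subgroup.closure_mono ?_ h
    rintro z (hz | ⟨j, hj, rfl⟩)
    · exact Or.inl (Subgroup.subset_closure (Or.inl hz))
    · rcases (Set.mem_Iic.mp hj).eq_or_lt with rfl | hj
      · exact Or.inr rfl
      · left
        rw [hK]
        exact Subgroup.subset_closure (Or.inr ⟨j, hj, rfl⟩)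
  refine ⟨Subgroup.closure ((H0 : Set G) ∪ y '' Set.univ), ?_, fun c => ?_⟩
  · intro h
    rcases hlim _ _ h with h | ⟨j, _, h⟩
    · exact hu h
    · exact hL j h
  · obtain ⟨x, hx⟩ := hconj c
    exact ⟨x, hx ▸ Subgroup.subset_closure (Or.inr ⟨c, trivial, rfl⟩)⟩

theorem exists_avoid {ι : Type} (hι : #ι < 𝔠) (p : ι → ℝ[X]) (hp : ∀ i, p i ≠ 0) :
    ∃ t : ℝ, ∀ i, (p i).eval t ≠ 0 := by
  by_contra hc
  push Not at hc
  have h1 : (Set.univ : Set ℝ) ⊆ ⋃ i, {t | (p i).IsRoot t} := by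
    intro t _
    obtain ⟨i, hi⟩ := hc t
    exact Set.mem_iUnion.mpr ⟨i, hi⟩
  have h2 := (mk_le_mk_of_subset h1).trans (mk_iUnion_le _)
  rw [mk_univ, mk_real] at h2
  have h3 : ⨆ i, #{t | (p i).IsRoot t} ≤ ℵ₀ :=
    ciSup_le' (fun i => ((p i).finite_setOfPred_isRoot (hp i)).lt_aleph0.le)
  have h4 : #ι * ℵ₀ < 𝔠 := mul_lt_of_lt aleph0_le_continuum hι aleph0_lt_continuum
  exact absurd (h2.trans (mul_le_mul_right h3 _)) (not_le.mpr h4)

abbrev G : Type := SL(2, ℝ)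

abbrev GP : Type := SL(2, ℝ[X])

noncomputable def cst : G →* GP := SpecialLinearGroup.map (C : ℝ →+* ℝ[X])

noncomputable def ev (t : ℝ) : GP →* G := SpecialLinearGroup.map (evalRingHom t)

theorem cst_apply (g : G) (i j : Fin 2) : cst g i j = C (g i j) := rfl

theorem ev_apply (t : ℝ) (g : GP) (i j : Fin 2) : ev t g i j = (g i j).eval t := rfl

theorem ev_cst (t : ℝ) (g : G) : ev t (cst g) = g := by
  ext i j
  simp [ev_apply, cst_apply]

def Cen (g : G) : Prop := g = 1 ∨ g = -1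

theorem cen_of (g : G) (h1 : g 0 1 = 0) (h2 : g 1 0 = 0) (h3 : g 0 0 = g 1 1) : Cen g := by
  have hd := g.det_coe
  rw [det_fin_two, h1, h2, ← h3] at hd
  have h4 : g 0 0 = 1 ∨ g 0 0 = -1 := mul_self_eq_one_iff.mp (by linarith)
  rcases h4 with h4 | h4
  · left
    ext i j
    fin_cases i <;> fin_cases j <;> simp [h1, h2, ← h3, h4]
  · right
    ext i j
    fin_cases i <;> fin_cases j <;> simp [h1, h2, ← h3, h4]

theorem cst_neg_one : cst (-1) = -1 := by
  ext i j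
  fin_cases i <;> fin_cases j <;> simp [cst_apply]

theorem Cen.comm {g : G} (h : Cen g) (γ : GP) : γ * cst g = cst g * γ := by
  rcases h with rfl | rfl
  · simp
  · simp [cst_neg_one]

theorem cen_conj (a g : G) : Cen (a⁻¹ * g * a) ↔ Cen g := by
  unfold Cen
  constructor
  · rintro (h | h)
    · left
      calc g = a * (a⁻¹ * g * a) * a⁻¹ := by group
        _ = 1 := by rw [h]; simp
    · right
      calc g = a * (a⁻¹ * g * a) * a⁻¹ := by group
        _ = -1 := by rw [h]; simp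
  · rintro (rfl | rfl) <;> simp

theorem exists_dir (T : Set G) (hT : #T < 𝔠) :
    ∃ a : G, ∀ h ∈ T, ¬ Cen h → (a⁻¹ * h * a) 1 0 ≠ 0 := by
  let p : {h : G // h ∈ T ∧ ¬ Cen h} → ℝ[X] := fun h =>
    C (h.1 1 0) + C (h.1 1 1 - h.1 0 0) * X - C (h.1 0 1) * X ^ 2
  have hp : ∀ h, p h ≠ 0 := by
    intro h h0
    apply h.2.2
    have e0 := congrArg (fun q => q.coeff 0) h0
    have e1 := congrArg (fun q => q.coeff 1) h0
    have e2 := congrArg (fun q => q.coeff 2) h0
    simp [p, coeff_X, coeff_C] at e0 e1 e2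
    exact cen_of _ e2 e0 (by linarith)
  obtain ⟨s, hs⟩ := exists_avoid ((mk_le_mk_of_subset (fun h hh => hh.1)).trans_lt hT) p hp
  refine ⟨⟨!![1, 0; s, 1], by simp [det_fin_two]⟩, fun h hh hc h0 => hs ⟨h, hh, hc⟩ ?_⟩
  simp [adjugate_fin_two, Matrix.mul_apply, Fin.sum_univ_two,
    Matrix.vecMul, dotProduct] at h0
  simp [p]
  linarith

noncomputable def U : GP := ⟨!![1, X; 0, 1], by simp [det_fin_two]⟩

noncomputable def Y (m : G) : GP := U * cst m * U⁻¹

theorem Y_mul (m m' : G) : Y (m * m') = Y m * Y m' := by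
  simp [Y, mul_assoc]

theorem Y_cen {m : G} (h : Cen m) : Y m = cst m := by
  rw [Y, h.comm, mul_inv_cancel_right]

def Nn (v : Fin 2 → ℝ[X]) : Prop := ∃ d : ℕ, (v 0).degree = ((d + 1 : ℕ) : WithBot ℕ) ∧ (v 1).degree ≤ d

def Pp (v : Fin 2 → ℝ[X]) : Prop := ∃ d : ℕ, (v 1).degree = d ∧ (v 0).degree ≤ d

theorem degree_C_mul_le (a : ℝ) (p : ℝ[X]) : (C a * p).degree ≤ p.degree := by
  rw [← smul_eq_C_mul]
  exact degree_smul_le a p

theorem Pp_of_Nn (h : G) (hh : h 1 0 ≠ 0) (v : Fin 2 → ℝ[X]) (hv : Nn v) :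
    Pp ((cst h).1 *ᵥ v) := by
  obtain ⟨d, h0, h1⟩ := hv
  have hlt : (v 1).degree < ((d + 1 : ℕ) : WithBot ℕ) := h1.trans_lt (by exact_mod_cast Nat.lt_succ_self d)
  refine ⟨d + 1, ?_, ?_⟩
  · have : ((cst h).1 *ᵥ v) 1 = C (h 1 0) * v 0 + C (h 1 1) * v 1 := by
      simp [mulVec, dotProduct, Fin.sum_univ_two, cst_apply]
    rw [this, degree_add_eq_left_of_degree_lt, degree_C_mul hh, h0]
    rw [degree_C_mul hh, h0]
    exact (degree_C_mul_le _ _).trans_lt hlt
  · have : ((cst h).1 *ᵥ v) 0 = C (h 0 0) * v 0 + C (h 0 1) * v 1 := by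
      simp [mulVec, dotProduct, Fin.sum_univ_two, cst_apply]
    rw [this]
    exact (degree_add_le _ _).trans (max_le ((degree_C_mul_le _ _).trans h0.le)
      ((degree_C_mul_le _ _).trans hlt.le))

theorem degree_X_mul_le' (p : ℝ[X]) (d : ℕ) (h : p.degree ≤ d) :
    (X * p).degree ≤ ((d + 1 : ℕ) : WithBot ℕ) := by
  rw [degree_mul, degree_X, add_comm]
  push_cast
  exact add_le_add_left h 1

theorem Nn_of_Pp (m : G) (hm : m 1 0 ≠ 0) (v : Fin 2 → ℝ[X]) (hv : Pp v) :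
    Nn ((Y m).1 *ᵥ v) := by
  obtain ⟨d, h1, h0⟩ := hv
  have hd : ((d : ℕ) : WithBot ℕ) ≤ ((d + 1 : ℕ) : WithBot ℕ) := by exact_mod_cast Nat.le_succ d
  refine ⟨d + 1, ?_, ?_⟩
  · have : ((Y m).1 *ᵥ v) 0 = (C (m 0 0) * v 0 + C (m 1 0) * (X * v 0) + C (m 0 1) * v 1
        + C (m 1 1 - m 0 0) * (X * v 1)) - C (m 1 0) * (X * (X * v 1)) := by
      simp [Y, U, mulVec, dotProduct, Fin.sum_univ_two, cst_apply, 
        adjugate_fin_two, Matrix.mul_apply, Matrix.vecMul]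
      ring
    have h2 : (C (m 1 0) * (X * (X * v 1))).degree = ((d + 1 + 1 : ℕ) : WithBot ℕ) := by
      rw [degree_C_mul hm, degree_mul, degree_mul, degree_X, h1]
      push_cast
      ring
    rw [this, degree_sub_eq_right_of_degree_lt, h2]
    rw [h2]
    refine lt_of_le_of_lt (b := ((d + 1 : ℕ) : WithBot ℕ)) ?_
      (by exact_mod_cast Nat.lt_succ_self (d + 1))
    refine (degree_add_le _ _).trans (max_le ((degree_add_le _ _).trans (max_le
      ((degree_add_le _ _).trans (max_le ?_ ?_)) ?_)) ?_)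
    · exact (degree_C_mul_le _ _).trans (h0.trans hd)
    · exact (degree_C_mul_le _ _).trans (degree_X_mul_le' _ _ h0)
    · exact (degree_C_mul_le _ _).trans (h1.le.trans hd)
    · exact (degree_C_mul_le _ _).trans (degree_X_mul_le' _ _ h1.le)
  · have : ((Y m).1 *ᵥ v) 1 = (C (m 1 0) * v 0 + C (m 1 1) * v 1) - C (m 1 0) * (X * v 1) := by
      simp [Y, U, mulVec, dotProduct, Fin.sum_univ_two, cst_apply, 
        adjugate_fin_two, Matrix.mul_apply, Matrix.vecMul]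
      ring
    rw [this]
    refine (degree_sub_le _ _).trans (max_le ((degree_add_le _ _).trans (max_le ?_ ?_)) ?_)
    · exact (degree_C_mul_le _ _).trans (h0.trans hd)
    · exact (degree_C_mul_le _ _).trans (h1.le.trans hd)
    · exact (degree_C_mul_le _ _).trans (degree_X_mul_le' _ _ h1.le)

inductive Rd (H : Subgroup G) (m : G) : GP → Prop
  | base (k : ℤ) (h : G) : h ∈ H → ¬ Cen (m ^ k) → Rd H m (Y (m ^ k) * cst h)
  | cons (k : ℤ) (h : G) (r : GP) : h ∈ H → ¬ Cen h → ¬ Cen (m ^ k) → Rd H m r →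
      Rd H m (Y (m ^ k) * (cst h * r))

def St (H : Subgroup G) (m : G) (γ : GP) : Prop :=
  ∃ h ∈ H, γ = cst h ∨ ∃ r, Rd H m r ∧ γ = cst h * r

theorem St.cst_mul {H : Subgroup G} {m : G} {γ : GP} (hγ : St H m γ) {h : G} (hh : h ∈ H) :
    St H m (cst h * γ) := by
  obtain ⟨h', hh', rfl | ⟨r, hr, rfl⟩⟩ := hγ
  · exact ⟨h * h', mul_mem hh hh', Or.inl (by rw [map_mul])⟩
  · exact ⟨h * h', mul_mem hh hh', Or.inr ⟨r, hr, by rw [map_mul, mul_assoc]⟩⟩

theorem St.Y_mul {H : Subgroup G} (hH : ∀ g, Cen g → g ∈ H) {m : G} {γ : GP} (hγ : St H m γ)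
    (j : ℤ) : St H m (Y (m ^ j) * γ) := by
  by_cases hj : Cen (m ^ j)
  · rw [Y_cen hj]
    exact hγ.cst_mul (hH _ hj)
  obtain ⟨h, hh, rfl | ⟨r, hr, rfl⟩⟩ := hγ
  · exact ⟨1, one_mem _, Or.inr ⟨_, Rd.base j h hh hj, by simp⟩⟩
  · by_cases hc : Cen h
    · rw [← mul_assoc, hc.comm, mul_assoc]
      refine St.cst_mul ?_ hh
      cases hr with
      | base k h' hh' hk =>
        rw [← mul_assoc, ← SL2R.Y_mul, ← _root_.zpow_add]
        by_cases hjk : Cen (m ^ (j + k))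
        · rw [Y_cen hjk, ← map_mul]
          exact ⟨_, mul_mem (hH _ hjk) hh', Or.inl rfl⟩
        · exact ⟨1, one_mem _, Or.inr ⟨_, Rd.base _ h' hh' hjk, by simp⟩⟩
      | cons k h' r' hh' hc' hk hr' =>
        rw [← mul_assoc, ← SL2R.Y_mul, ← _root_.zpow_add]
        by_cases hjk : Cen (m ^ (j + k))
        · rw [Y_cen hjk, ← mul_assoc, ← map_mul]
          exact ⟨_, mul_mem (hH _ hjk) hh', Or.inr ⟨r', hr', rfl⟩⟩
        · exact ⟨1, one_mem _, Or.inr ⟨_, Rd.cons _ h' r' hh' hc' hjk hr', by simp⟩⟩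
    · exact ⟨1, one_mem _, Or.inr ⟨_, Rd.cons j h r hh hc hj hr, by simp⟩⟩

theorem st_of_mem {H : Subgroup G} (hH : ∀ g, Cen g → g ∈ H) {m : G} {γ : GP}
    (hγ : γ ∈ Subgroup.closure (cst '' (H : Set G) ∪ {Y m})) : St H m γ := by
  induction hγ using Subgroup.closure_induction_left with
  | one => exact ⟨1, one_mem _, Or.inl (by simp)⟩
  | mul_left x hx y _ ih =>
    rcases hx with ⟨h, hh, rfl⟩ | rfl
    · exact ih.cst_mul hh
    · simpa using ih.Y_mul hH 1
  | inv_mul_cancel x hx y _ ih =>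
    rcases hx with ⟨h, hh, rfl⟩ | rfl
    · rw [← map_inv]
      exact ih.cst_mul (inv_mem hh)
    · have h1 : (Y m)⁻¹ = Y (m ^ (-1 : ℤ)) := by simp [Y, mul_assoc]
      rw [h1]
      exact ih.Y_mul hH (-1)

theorem val_mul {S : Type} [CommRing S] (a b : SL(2, S)) : (a * b).1 = a.1 * b.1 := rfl

theorem val_one {S : Type} [CommRing S] : (1 : SL(2, S)).1 = 1 := rfl

theorem cst_mulVec (g : G) (v : Fin 2 → ℝ) :
    (cst g).1 *ᵥ (fun i => C (v i)) = fun i => C ((g.1 *ᵥ v) i) := by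
  funext i
  simp [mulVec, dotProduct, Fin.sum_univ_two, cst_apply]

theorem Rd.exists_vec {H : Subgroup G} {m : G} (h1 : ∀ h ∈ H, ¬ Cen h → h 1 0 ≠ 0)
    (h2 : ∀ k : ℤ, ¬ Cen (m ^ k) → (m ^ k) 1 0 ≠ 0) {r : GP} (hr : Rd H m r) :
    ∃ v : Fin 2 → ℝ, Nn (r.1 *ᵥ (fun i => C (v i))) := by
  induction hr with
  | base k h _ hk =>
    refine ⟨(h⁻¹).1 *ᵥ ![0, 1], ?_⟩
    rw [val_mul, ← mulVec_mulVec, cst_mulVec, mulVec_mulVec,
      ← val_mul, mul_inv_cancel, val_one, one_mulVec]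
    exact Nn_of_Pp _ (h2 k hk) _ ⟨0, by simp, by simp⟩
  | cons k h r hh hc hk _ ih =>
    obtain ⟨v, hv⟩ := ih
    refine ⟨v, ?_⟩
    rw [val_mul, val_mul, ← mulVec_mulVec, ← mulVec_mulVec]
    exact Nn_of_Pp _ (h2 k hk) _ (Pp_of_Nn _ (h1 h hh hc) _ hv)

theorem cst_injective : Function.Injective cst := fun g g' h => by
  rw [← ev_cst 0 g, h, ev_cst]

theorem core (H : Subgroup G) (hH : ∀ g, Cen g → g ∈ H) (hcard : #H < 𝔠) (m u : G) (hu : u ∉ H)
    (h1 : ∀ h ∈ H, ¬ Cen h → h 1 0 ≠ 0) (h2 : ∀ k : ℤ, ¬ Cen (m ^ k) → (m ^ k) 1 0 ≠ 0) :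
    ∃ x : G, u ∉ Subgroup.closure ((H : Set G) ∪ {x * m * x⁻¹}) := by
  let Γ : Subgroup GP := Subgroup.closure (cst '' (H : Set G) ∪ {Y m})
  have hΓ : #Γ < 𝔠 := by
    refine (mk_closure_le _).trans_lt (max_lt ?_ aleph0_lt_continuum)
    refine (mk_union_le _ _).trans_lt (add_lt_of_lt aleph0_le_continuum ?_ ?_)
    · exact mk_image_le.trans_lt hcard
    · rw [mk_singleton]
      exact one_lt_aleph0.trans aleph0_lt_continuum
  have hne : ∀ γ : Γ, ∃ i j, γ.1 i j - C (u i j) ≠ 0 := by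
    intro γ
    by_contra hc
    push Not at hc
    have h3 : γ.1 = cst u := by
      ext1 i j
      rw [cst_apply]
      exact sub_eq_zero.mp (hc i j)
    obtain ⟨h, hh, h4 | ⟨r, hr, h4⟩⟩ := st_of_mem hH γ.2
    · rw [h3] at h4
      exact hu (cst_injective h4 ▸ hh)
    · obtain ⟨v, d, hv, _⟩ := hr.exists_vec h1 h2
      have h5 : r = cst (h⁻¹ * u) := by
        rw [map_mul, ← h3, h4, map_inv, inv_mul_cancel_left]
      rw [h5, cst_mulVec] at hv
      have h6 := degree_C_le (a := (((h⁻¹ * u).1 *ᵥ v) 0))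
      beta_reduce at hv
      rw [hv] at h6
      have h7 : d + 1 ≤ 0 := by exact_mod_cast h6
      omega
  choose i j hij using hne
  obtain ⟨t, ht⟩ := exists_avoid hΓ _ hij
  refine ⟨ev t U, fun hmem => ?_⟩
  have h8 : Subgroup.closure ((H : Set G) ∪ {ev t U * m * (ev t U)⁻¹}) ≤ Γ.map (ev t) := by
    rw [Subgroup.closure_le]
    rintro z (hz | rfl)
    · exact ⟨cst z, Subgroup.subset_closure (Or.inl ⟨z, hz, rfl⟩), ev_cst t z⟩
    · exact ⟨Y m, Subgroup.subset_closure (Or.inr rfl), by simp [Y, ev_cst]⟩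
  obtain ⟨γ, hγ, h9⟩ := h8 hmem
  apply ht ⟨γ, hγ⟩
  rw [eval_sub, eval_C, ← ev_apply, h9, sub_self]

theorem step (H : Subgroup G) (hH : ∀ g, Cen g → g ∈ H) (hcard : #H < 𝔠) (c u : G)
    (hu : u ∉ H) : ∃ x : G, u ∉ Subgroup.closure ((H : Set G) ∪ {x * c * x⁻¹}) := by
  obtain ⟨a, ha⟩ := exists_dir (H : Set G) hcard
  obtain ⟨b, hb⟩ := exists_dir (Set.range (fun k : ℤ => c ^ k))
    (mk_range_le.trans_lt (by simpa using aleph0_lt_continuum))
  let f : G ≃* G := MulAut.conj a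
  have hf : ∀ g, f g = a * g * a⁻¹ := fun g => rfl
  let H' : Subgroup G := H.comap f.toMonoidHom
  have hmem : ∀ g, g ∈ H' ↔ a * g * a⁻¹ ∈ H := fun g => Iff.rfl
  obtain ⟨x, hx⟩ := core H' (fun g hg => hH _ (by
      have := (cen_conj a⁻¹ g).mpr hg
      rwa [inv_inv] at this)) (by
      refine lt_of_le_of_lt ?_ hcard
      exact mk_preimage_of_injective f (H : Set G) f.injective)
    (b⁻¹ * c * b) (a⁻¹ * u * a) (by
      rw [hmem]
      simpa [mul_assoc] using hu) (by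
      intro h hh hc
      have := ha _ ((hmem h).mp hh) (by
        have h1 := cen_conj a⁻¹ h
        rw [inv_inv] at h1
        rwa [h1])
      simpa [mul_assoc] using this) (by
      intro k hk
      have h1 : (b⁻¹ * c * b) ^ k = b⁻¹ * c ^ k * b := by
        have := conj_zpow (i := k) (a := b⁻¹) (b := c)
        rwa [inv_inv] at this
      rw [h1] at hk ⊢
      exact hb _ ⟨k, rfl⟩ (by rwa [cen_conj] at hk))
  refine ⟨a * x * b⁻¹, fun hmem' => hx ?_⟩
  have h2 : Subgroup.closure ((H : Set G) ∪ {a * x * b⁻¹ * c * (a * x * b⁻¹)⁻¹}) ≤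
      (Subgroup.closure ((H' : Set G) ∪ {x * (b⁻¹ * c * b) * x⁻¹})).comap f.symm.toMonoidHom := by
    rw [Subgroup.closure_le]
    rintro z (hz | rfl)
    · refine Subgroup.subset_closure (Or.inl ?_)
      show f (f.symm z) ∈ H
      rwa [MulEquiv.apply_symm_apply]
    · refine Subgroup.subset_closure (Or.inr ?_)
      show a⁻¹ * _ * a = _
      group
  exact h2 hmem'

theorem main : ∃ H : Subgroup G, H ≠ ⊤ ∧ ∀ c : G, ∃ x : G, x * c * x⁻¹ ∈ H := by
  let H0 : Subgroup G :=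
    { carrier := {g | Cen g}
      mul_mem' := by
        rintro a b (rfl | rfl) (rfl | rfl) <;> simp [Cen]
      one_mem' := Or.inl rfl
      inv_mem' := by
        rintro a (rfl | rfl) <;> simp [Cen] }
  let u : G := ⟨!![1, 1; 0, 1], by simp [det_fin_two]⟩
  have hu : u ∉ H0 := by
    rintro (h | h)
    · have := congrArg (fun g : G => g 0 1) h
      simp [u] at this
    · have := congrArg (fun g : G => g 0 1) h
      simp [u] at this
  have hG : #G ≤ 𝔠 := by
    refine (mk_subtype_le _).trans ?_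
    show #(Fin 2 → Fin 2 → ℝ) ≤ 𝔠
    rw [mk_congr (Equiv.curry (Fin 2) (Fin 2) ℝ).symm, mk_pi, prod_const, mk_real]
    simp only [lift_id, mk_fintype]
    rw [power_natCast]
    exact (power_nat_le aleph0_le_continuum)
  have h0 : #H0 < 𝔠 := by
    have : (H0 : Set G).Finite := (Set.toFinite ({1, -1} : Set G)).subset (fun g hg => hg)
    exact this.lt_aleph0.trans aleph0_lt_continuum
  obtain ⟨H, hH, h⟩ := abstract 𝔠 hG aleph0_lt_continuum u H0 h0 hu
    (fun H h1 h2 h3 c => step H (fun g hg => h2 hg) h1 c u h3)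
  exact ⟨H, fun h1 => hH (h1 ▸ Subgroup.mem_top u), h⟩

end Pool.Agent.H499Z.SL2R
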