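import Mathlib

/-!
Sofic actions of groups on sets.  An action of `G` on `X` is a homomorphism `G →* Equiv.Perm X`.
-/

set_option autoImplicit false

namespace Pool.Agent.H499Z.SoficAct

universe v w

open Classical in
/-- The normalized Hamming distance on `Sym(A)`. -/
noncomputable def hamming {A : Type} [Fintype A] (σ τ : Equiv.Perm A) : ℝ :=
  ((Finset.univ.filter fun a => σ a ≠ τ a).card : ℝ) / (Fintype.card A : ℝ)

/-- `φ` is `(F, ε)`-multiplicative. -/
def IsMultiplicative {G : Type v} [Group G] {A : Type} [Fintype A] (φ : G → Equiv.Perm A)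
    (F : Finset G) (ε : ℝ) : Prop :=
  ∀ g ∈ F, ∀ h ∈ F, hamming (φ (g * h)) (φ g * φ h) < ε

/-- `φ` is an `(F, E, ε)`-orbit approximation of the action `α`. -/
def IsOrbitApprox {G : Type v} [Group G] {X : Type w} (α : G →* Equiv.Perm X) {A : Type}
    [Fintype A] (φ : G → Equiv.Perm A) (F : Finset G) (E : Finset X) (ε : ℝ) : Prop :=
  ∃ (B : Type) (_ : Finite B) (S : Finset A) (π : S → (E ↪ B)),
    (1 - ε) * (Fintype.card A : ℝ) < (S.card : ℝ) ∧
    ∀ (s : S), ∀ g ∈ F, ∀ (x : E) (hs : φ g s ∈ S) (hx : α g⁻¹ x ∈ E),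
      π ⟨φ g s, hs⟩ x = π s ⟨α g⁻¹ x, hx⟩

/-- The action `α` is sofic. -/
def IsSofic {G : Type v} [Group G] {X : Type w} (α : G →* Equiv.Perm X) : Prop :=
  ∀ (F : Finset G) (E : Finset X) (ε : ℝ), 0 < ε →
    ∃ (A : Type) (_ : Fintype A) (φ : G → Equiv.Perm A),
      φ 1 = 1 ∧ IsMultiplicative φ F ε ∧ IsOrbitApprox α φ F E ε

end Pool.Agent.H499Z.SoficAct
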