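import Pool.Agent.H499Z.SoficDefs

set_option autoImplicit false

namespace Pool.Agent.H499Z.SoficAct

open Filter Topology Monoid

universe u v w

open Classical in
noncomputable def frac {A : Type u} [Fintype A] (P : A → Prop) : ℝ :=
  ((Finset.univ.filter P).card : ℝ) / (Fintype.card A : ℝ)

theorem frac_nonneg {A : Type u} [Fintype A] (P : A → Prop) : 0 ≤ frac P := by
  unfold frac; positivity

theorem frac_mono {A : Type u} [Fintype A] {P Q : A → Prop} (h : ∀ a, P a → Q a) :
    frac P ≤ frac Q := by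
  classical
  unfold frac
  refine div_le_div_of_nonneg_right ?_ (by positivity)
  exact_mod_cast Finset.card_le_card (fun a ha => by
    simp only [Finset.mem_filter, Finset.mem_univ, true_and] at ha ⊢
    exact h a ha)

theorem frac_or {A : Type u} [Fintype A] (P Q : A → Prop) :
    frac (fun a => P a ∨ Q a) ≤ frac P + frac Q := by
  classical
  unfold frac
  rw [← add_div]
  refine div_le_div_of_nonneg_right ?_ (by positivity)
  have := Finset.card_union_le (Finset.univ.filter P) (Finset.univ.filter Q)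
  rw [← Finset.filter_or] at this
  exact_mod_cast (by convert this)

theorem frac_false {A : Type u} [Fintype A] : frac (fun _ : A => False) = 0 := by
  simp [frac]

theorem frac_equiv {A : Type u} {A' : Type v} [Fintype A] [Fintype A'] (e : A ≃ A')
    (P : A' → Prop) : frac (fun a => P (e a)) = frac P := by
  classical
  unfold frac
  rw [Fintype.card_congr e]
  congr 2
  refine Finset.card_bij (fun a _ => e a) ?_ ?_ ?_
  · intro a ha
    simpa using ha
  · intro a _ b _ h
    exact e.injective h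
  · intro b hb
    exact ⟨e.symm b, by simpa using hb, by simp⟩

theorem frac_fst {A : Type u} {C : Type v} [Fintype A] [Fintype C] [Nonempty C] (P : A → Prop) :
    frac (fun z : A × C => P z.1) = frac P := by
  classical
  unfold frac
  have h1 : (Finset.univ.filter (fun z : A × C => P z.1)) =
      (Finset.univ.filter P) ×ˢ (Finset.univ : Finset C) := by
    ext z; simp
  have hC : (Fintype.card C : ℝ) ≠ 0 := by exact_mod_cast Fintype.card_ne_zero
  rw [Fintype.card_prod]
  have h2 := congrArg Finset.card h1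
  rw [Finset.card_product, Finset.card_univ] at h2
  rw [show (Finset.univ.filter (fun z : A × C => P z.1)).card =
    (Finset.univ.filter P).card * Fintype.card C by convert h2]
  push_cast
  rw [mul_div_mul_right _ _ hC]

theorem frac_pi {J : Type u} [Fintype J] [DecidableEq J] {A : J → Type} [∀ j, Fintype (A j)]
    [∀ j, Nonempty (A j)] (i : J) (P : A i → Prop) :
    frac (fun z : ∀ j, A j => P (z i)) = frac P := by
  rw [← frac_fst (C := ∀ j : {j // j ≠ i}, A j) P,
    ← frac_equiv (Equiv.piSplitAt i A) (fun z => P z.1)]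
  rfl

theorem frac_not_mem {A : Type} [Fintype A] (S : Finset A) (δ : ℝ)
    (h : (1 - δ) * (Fintype.card A : ℝ) < (S.card : ℝ)) [Nonempty A] :
    frac (fun a => a ∉ S) ≤ δ := by
  classical
  unfold frac
  have hA : (0 : ℝ) < Fintype.card A := by exact_mod_cast Fintype.card_pos
  have h2 := Finset.card_add_card_compl S
  have h3 : (S.card : ℝ) + ((Sᶜ).card : ℝ) = Fintype.card A := by exact_mod_cast h2
  rw [div_le_iff₀ hA]
  refine le_of_eq_of_le (b := ((Sᶜ).card : ℝ)) ?_ (by linarith)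
  congr 2
  ext a
  simp

theorem hamming_eq_frac {A : Type} [Fintype A] (σ τ : Equiv.Perm A) :
    hamming σ τ = frac (fun a => σ a ≠ τ a) := by
  unfold hamming frac
  congr!

theorem good_of_frac {A : Type} [Fintype A] [Nonempty A] (Q : A → Prop) [DecidablePred Q] (ε : ℝ)
    (h : frac (fun z => ¬ Q z) < ε) :
    (1 - ε) * (Fintype.card A : ℝ) < ((Finset.univ.filter Q).card : ℝ) := by
  unfold frac at h
  have hA : (0 : ℝ) < Fintype.card A := by exact_mod_cast Fintype.card_pos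
  rw [div_lt_iff₀ hA] at h
  have h9 := Finset.card_filter_add_card_filter_not (s := (Finset.univ : Finset A)) Q
  rw [Finset.card_univ] at h9
  have h10 := congrArg (Nat.cast : ℕ → ℝ) h9
  rw [Nat.cast_add] at h10
  have h11 : ((Finset.univ.filter (fun z => ¬ Q z)).card : ℝ) < ε * (Fintype.card A : ℝ) := by
    refine lt_of_eq_of_lt ?_ h
    congr!
  linarith

/-- The twisted permutation of the product space. -/
def twist {J : Type u} [DecidableEq J] {A : J → Type} {C : Type} [Group C] (i : J) (τ : A i → C)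
    (f : Equiv.Perm (A i)) : Equiv.Perm ((∀ j, A j) × C) where
  toFun z := (Function.update z.1 i (f (z.1 i)), z.2 * (τ (z.1 i))⁻¹ * τ (f (z.1 i)))
  invFun z := (Function.update z.1 i (f.symm (z.1 i)), z.2 * (τ (z.1 i))⁻¹ * τ (f.symm (z.1 i)))
  left_inv z := by ext <;> simp
  right_inv z := by ext <;> simp

theorem twist_one {J : Type u} [DecidableEq J] {A : J → Type} {C : Type} [Group C] (i : J)
    (τ : A i → C) : twist i τ (1 : Equiv.Perm (A i)) = 1 := by
  ext z <;> simp [twist]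

theorem twist_comp {J : Type u} [DecidableEq J] {A : J → Type} {C : Type} [Group C] (i : J)
    (τ : A i → C) (f g h : Equiv.Perm (A i)) (z : (∀ j, A j) × C)
    (hz : f (z.1 i) = g (h (z.1 i))) : twist i τ f z = twist i τ g (twist i τ h z) := by
  ext <;> simp [twist, hz]

theorem level' {ι : Type u} {G : ι → Type v} [∀ i, Group (G i)] {X : Type w}
    (α : ∀ i, G i →* Equiv.Perm X) (hα : ∀ i, IsSofic (α i))
    (T : Finset (Σ i, G i)) (E : Finset X) (δ : ℝ) (hδ : 0 < δ) :
    ∃ (A : Type u) (_ : Fintype A) (_ : Nonempty A) (N : ℕ) (ψ : ∀ i, G i → Equiv.Perm A)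
      (lam : A → X → Fin N), (∀ i, ψ i 1 = 1) ∧ (∀ z, Set.InjOn (lam z) E) ∧
      (∀ i g h, (⟨i, g⟩ : Σ i, G i) ∈ T → (⟨i, h⟩ : Σ i, G i) ∈ T →
        frac (fun z => ψ i (g * h) z ≠ ψ i g (ψ i h z)) ≤ δ) ∧
      (∀ i g x, (⟨i, g⟩ : Σ i, G i) ∈ T → x ∈ E → α i g⁻¹ x ∈ E →
        frac (fun z => lam (ψ i g z) x ≠ lam z (α i g⁻¹ x)) ≤ 2 * δ) := by
  classical
  have H := fun i => hα i (T.preimage (Sigma.mk i) sigma_mk_injective.injOn) E δ hδ
  choose A instA φ hφ1 hφm B instB S π hS hπ using H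
  have hne : ∀ i, Nonempty (A i) := by
    intro i
    by_contra h0
    rw [not_nonempty_iff] at h0
    have h1 := hS i
    have h2 : S i = ∅ := Finset.eq_empty_of_isEmpty _
    simp [h2] at h1
  let J : Finset ι := T.image Sigma.fst
  let N : ℕ := E.card + ∑ j ∈ J, Nat.card (B j) + 1
  obtain ⟨embE⟩ : Nonempty (E ↪ Fin N) :=
    Function.Embedding.nonempty_of_card_le (by simp [N]; omega)
  have hκ : ∀ j : J, Nonempty (B j ↪ Fin N) := by
    intro j
    have := Fintype.ofFinite (B j)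
    refine Function.Embedding.nonempty_of_card_le ?_
    have h1 : Nat.card (B j) ≤ ∑ j ∈ J, Nat.card (B j) :=
      Finset.single_le_sum (f := fun j => Nat.card (B j)) (fun _ _ => Nat.zero_le _) j.2
    rw [← Nat.card_eq_fintype_card, Fintype.card_fin]
    omega
  let κ : ∀ j : J, B j ↪ Fin N := fun j => (hκ j).some
  have hτ : ∀ (j : J) (s : A j), ∃ t : Equiv.Perm (Fin N), ∀ hs : s ∈ S j, ∀ x : E,
      t (embE x) = κ j (π j ⟨s, hs⟩ x) := by
    intro j s
    by_cases hs : s ∈ S j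
    · obtain ⟨t, ht⟩ := Equiv.Perm.exists_extending_pair (f := embE)
        (g := fun x => κ j (π j ⟨s, hs⟩ x)) embE.injective
        ((κ j).injective.comp (π j ⟨s, hs⟩).injective)
      exact ⟨t, fun _ x => ht x⟩
    · exact ⟨1, fun h => absurd h hs⟩
  choose τ hτ using hτ
  let e0 : X → Fin N := fun x => if h : x ∈ E then embE ⟨x, h⟩ else ⟨0, by omega⟩
  have he0 : ∀ x (h : x ∈ E), e0 x = embE ⟨x, h⟩ := fun x h => dif_pos h
  refine ⟨(∀ j : J, A j) × Equiv.Perm (Fin N), inferInstance, inferInstance, N,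
    fun i g => if h : i ∈ J then twist (A := fun j : J => A j) ⟨i, h⟩ (τ ⟨i, h⟩) (φ i g) else 1,
    fun z x => z.2 (e0 x), ?_, ?_, ?_, ?_⟩
  · intro i
    by_cases h : i ∈ J
    · simp only [dif_pos h, hφ1]
      exact twist_one _ _
    · simp only [dif_neg h]
  · intro z x hx y hy hxy
    have h1 := z.2.injective hxy
    rw [he0 x hx, he0 y hy] at h1
    exact congrArg Subtype.val (embE.injective h1)
  · intro i g h hg hh
    have hi : i ∈ J := Finset.mem_image.mpr ⟨_, hg, rfl⟩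
    simp only [dif_pos hi]
    have h1 := hφm i g (Finset.mem_preimage.mpr hg) h (Finset.mem_preimage.mpr hh)
    refine le_trans (frac_mono (Q := fun z => φ i (g * h) (z.1 ⟨i, hi⟩) ≠
      (φ i g * φ i h) (z.1 ⟨i, hi⟩)) ?_) ?_
    · intro z hz hz'
      exact hz (twist_comp _ _ _ _ _ _ hz')
    · rw [frac_fst (fun a : ∀ j : J, A j => φ i (g * h) (a ⟨i, hi⟩) ≠ (φ i g * φ i h) (a ⟨i, hi⟩)),
        frac_pi (A := fun j : J => A j) ⟨i, hi⟩ (fun a => φ i (g * h) a ≠ (φ i g * φ i h) a)]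
      rw [hamming_eq_frac] at h1
      exact h1.le
  · intro i g x hg hx hx'
    have hi : i ∈ J := Finset.mem_image.mpr ⟨_, hg, rfl⟩
    simp only [dif_pos hi]
    refine le_trans (frac_mono (Q := fun z => z.1 ⟨i, hi⟩ ∉ S i ∨ φ i g (z.1 ⟨i, hi⟩) ∉ S i) ?_) ?_
    · intro z hz
      by_contra hc
      rw [not_or, not_not, not_not] at hc
      apply hz
      have h1 := hπ i ⟨_, hc.1⟩ g (Finset.mem_preimage.mpr hg) ⟨x, hx⟩ hc.2 hx'
      have h2 := hτ ⟨i, hi⟩ _ hc.2 ⟨x, hx⟩
      have h3 := hτ ⟨i, hi⟩ _ hc.1 ⟨_, hx'⟩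
      simp only [twist, Equiv.coe_fn_mk, Equiv.Perm.coe_mul, Function.comp_apply]
      rw [he0 x hx, he0 _ hx', h2, h1, ← h3]
      simp
    · rw [frac_fst (fun a : ∀ j : J, A j => a ⟨i, hi⟩ ∉ S i ∨ φ i g (a ⟨i, hi⟩) ∉ S i),
        frac_pi (A := fun j : J => A j) ⟨i, hi⟩ (fun a => a ∉ S i ∨ φ i g a ∉ S i)]
      refine (frac_or _ _).trans ?_
      rw [frac_equiv (φ i g) (fun a => a ∉ S i)]
      have := frac_not_mem (S i) δ (hS i)
      linarith

theorem level {ι : Type u} {G : ι → Type v} [∀ i, Group (G i)] {X : Type w}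
    (α : ∀ i, G i →* Equiv.Perm X) (hα : ∀ i, IsSofic (α i))
    (T : Finset (Σ i, G i)) (E : Finset X) (δ : ℝ) (hδ : 0 < δ) :
    ∃ (n N : ℕ) (ψ : ∀ i, G i → Equiv.Perm (Fin (n + 1)))
      (lam : Fin (n + 1) → X → Fin N), (∀ i, ψ i 1 = 1) ∧ (∀ z, Set.InjOn (lam z) E) ∧
      (∀ i g h, (⟨i, g⟩ : Σ i, G i) ∈ T → (⟨i, h⟩ : Σ i, G i) ∈ T →
        frac (fun z => ψ i (g * h) z ≠ ψ i g (ψ i h z)) ≤ δ) ∧
      (∀ i g x, (⟨i, g⟩ : Σ i, G i) ∈ T → x ∈ E → α i g⁻¹ x ∈ E →
        frac (fun z => lam (ψ i g z) x ≠ lam z (α i g⁻¹ x)) ≤ 2 * δ) := by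
  obtain ⟨A, instA, hA, N, ψ, lam, h1, h2, h3, h4⟩ := level' α hα T E δ hδ
  obtain ⟨n, hn⟩ : ∃ n, Fintype.card A = n + 1 :=
    Nat.exists_eq_succ_of_ne_zero Fintype.card_ne_zero
  let e : A ≃ Fin (n + 1) := Fintype.equivFinOfCardEq hn
  refine ⟨n, N, fun i g => e.permCongr (ψ i g), fun z => lam (e.symm z), ?_, ?_, ?_, ?_⟩
  · intro i
    ext z
    simp [h1]
  · intro z
    exact h2 _
  · intro i g h hg hh
    rw [← frac_equiv e]
    refine le_trans (frac_mono ?_) (h3 i g h hg hh)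
    intro z hz hz'
    apply hz
    simp [hz']
  · intro i g x hg hx hx'
    rw [← frac_equiv e]
    refine le_trans (frac_mono ?_) (h4 i g x hg hx hx')
    intro z hz hz'
    apply hz
    simp [hz']

section AE

variable {P : Type u} (𝓕 : Filter P) {n : P → ℕ}

/-- A property holds asymptotically almost everywhere. -/
def AE (Q : ∀ p, Fin (n p + 1) → Prop) : Prop :=
  Tendsto (fun p => frac (fun z => ¬ Q p z)) 𝓕 (𝓝 0)

variable {𝓕}

theorem AE.mono {Q R : ∀ p, Fin (n p + 1) → Prop} (h : AE 𝓕 Q) (hQR : ∀ p z, Q p z → R p z) :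
    AE 𝓕 R :=
  squeeze_zero (fun _ => frac_nonneg _)
    (fun p => frac_mono (fun z hz hq => hz (hQR p z hq))) h

theorem AE.and {Q R : ∀ p, Fin (n p + 1) → Prop} (h : AE 𝓕 Q) (h' : AE 𝓕 R) :
    AE 𝓕 (fun p z => Q p z ∧ R p z) := by
  have h2 := Tendsto.add h h'
  rw [add_zero] at h2
  refine squeeze_zero (fun _ => frac_nonneg _) (fun p => ?_) h2
  exact le_trans (frac_mono (fun z hz => not_and_or.mp hz)) (frac_or _ _)

theorem AE.of_forall {Q : ∀ p, Fin (n p + 1) → Prop} (h : ∀ p z, Q p z) : AE 𝓕 Q := by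
  refine squeeze_zero (g := fun _ => 0) (fun _ => frac_nonneg _) (fun p => ?_) tendsto_const_nhds
  rw [← frac_false (A := Fin (n p + 1))]
  exact frac_mono (fun z hz => hz (h p z))

theorem AE.comp {Q : ∀ p, Fin (n p + 1) → Prop} (h : AE 𝓕 Q)
    (σ : ∀ p, Equiv.Perm (Fin (n p + 1))) : AE 𝓕 (fun p z => Q p (σ p z)) := by
  unfold AE at h ⊢
  refine h.congr (fun p => ?_)
  exact (frac_equiv (σ p) (fun z => ¬ Q p z)).symm

theorem AE.finset {β : Type v} (s : Finset β) {Q : β → ∀ p, Fin (n p + 1) → Prop}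
    (h : ∀ b, AE 𝓕 (Q b)) : AE 𝓕 (fun p z => ∀ b ∈ s, Q b p z) := by
  classical
  induction s using Finset.induction_on with
  | empty => exact AE.of_forall (by simp)
  | insert b s _ ih =>
    refine ((h b).and ih).mono ?_
    intro p z hz c hc
    rcases Finset.mem_insert.mp hc with rfl | hc
    · exact hz.1
    · exact hz.2 c hc

end AE

open Classical in
/-- Extension of maps on the factors to the free product along reduced words. -/
noncomputable def extW {ι : Type u} {G : ι → Type v} [∀ i, Group (G i)] {H : Type} [Group H]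
    (ψ : ∀ i, G i → H) (w : CoprodI.Word G) : H :=
  (w.toList.map (fun l => ψ l.1 l.2)).prod

open Classical in
theorem extW_rcons {ι : Type u} {G : ι → Type v} [∀ i, Group (G i)] {H : Type} [Group H]
    (ψ : ∀ i, G i → H) (hψ : ∀ i, ψ i 1 = 1) {i : ι} (p : CoprodI.Word.Pair G i) :
    extW ψ (CoprodI.Word.rcons p) = ψ i p.head * extW ψ p.tail := by
  unfold CoprodI.Word.rcons
  split_ifs with h
  · rw [h, hψ, one_mul]
  · simp [extW]

open Classical in
noncomputable def ext {ι : Type u} {G : ι → Type v} [∀ i, Group (G i)] {H : Type} [Group H]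
    (ψ : ∀ i, G i → H) (g : CoprodI G) : H :=
  extW ψ (CoprodI.Word.equiv g)

theorem ext_one {ι : Type u} {G : ι → Type v} [∀ i, Group (G i)] {H : Type} [Group H]
    (ψ : ∀ i, G i → H) : ext ψ 1 = 1 := by
  simp [ext, extW, CoprodI.Word.equiv]

theorem ext_of_mul {ι : Type u} {G : ι → Type v} [∀ i, Group (G i)] {i : ι} (g : CoprodI G) :
    ∃ (b : G i) (w : CoprodI.Word G), ∀ {H : Type} [Group H] (ψ : ∀ i, G i → H),
      (∀ i, ψ i 1 = 1) → ext ψ g = ψ i b * extW ψ w ∧
        ∀ a : G i, ext ψ (CoprodI.of a * g) = ψ i (a * b) * extW ψ w := by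
  classical
  refine ⟨(CoprodI.Word.equivPair i (CoprodI.Word.equiv g)).head,
    (CoprodI.Word.equivPair i (CoprodI.Word.equiv g)).tail, fun ψ hψ => ⟨?_, fun a => ?_⟩⟩
  · rw [← extW_rcons ψ hψ, ← CoprodI.Word.equivPair_symm, Equiv.symm_apply_apply]
    unfold ext
    congr!
  · have h1 : CoprodI.Word.equiv (CoprodI.of a * g) = CoprodI.of a • CoprodI.Word.equiv g := by
      simp [CoprodI.Word.equiv, mul_smul]
    have h2 := extW_rcons ψ hψ (⟨a * (CoprodI.Word.equivPair i (CoprodI.Word.equiv g)).head,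
      (CoprodI.Word.equivPair i (CoprodI.Word.equiv g)).tail,
      (CoprodI.Word.equivPair i (CoprodI.Word.equiv g)).fstIdx_ne⟩ : CoprodI.Word.Pair G i)
    rw [← h2, ← CoprodI.Word.of_smul_def, ← h1]
    unfold ext
    congr!

theorem free_product {ι : Type u} {G : ι → Type v} [∀ i, Group (G i)] {X : Type w}
    (α : ∀ i, G i →* Equiv.Perm X) (hα : ∀ i, IsSofic (α i)) : IsSofic (CoprodI.lift α) := by
  classical
  let P := Finset (Σ i, G i) × Finset X × ℕ
  have H := fun p : P => level α hα p.1 p.2.1 (1 / ((p.2.2 : ℝ) + 1)) (by positivity)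
  choose n N ψ lam h1 h2 h3 h4 using H
  let 𝓕 : Filter P := atTop
  have hT : ∀ l : Σ i, G i, ∀ᶠ p : P in 𝓕, l ∈ p.1 := fun l =>
    (eventually_ge_atTop (({l}, ∅, 0) : P)).mono
      (fun p hp => hp.1 (Finset.mem_singleton_self l))
  have hE : ∀ E : Finset X, ∀ᶠ p : P in 𝓕, E ⊆ p.2.1 := fun E =>
    (eventually_ge_atTop ((∅, E, 0) : P)).mono (fun p hp => hp.2.1)
  have hδ : Tendsto (fun p : P => 1 / ((p.2.2 : ℝ) + 1)) 𝓕 (𝓝 0) := by
    have h5 : Tendsto (fun p : P => p.2.2) 𝓕 atTop := by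
      refine tendsto_atTop.mpr (fun b => ?_)
      exact (eventually_ge_atTop ((∅, ∅, b) : P)).mono (fun p hp => hp.2.2)
    exact tendsto_one_div_add_atTop_nhds_zero_nat.comp h5
  have hM0 : ∀ i (g h : G i), AE 𝓕 (fun p z => ψ p i (g * h) z = ψ p i g (ψ p i h z)) := by
    intro i g h
    refine squeeze_zero' (Eventually.of_forall fun _ => frac_nonneg _) ?_ hδ
    filter_upwards [hT ⟨i, g⟩, hT ⟨i, h⟩] with p hg hh
    exact h3 p i g h hg hh
  have hL0 : ∀ i (g : G i) (x : X),
      AE 𝓕 (fun p z => lam p (ψ p i g z) x = lam p z (α i g⁻¹ x)) := by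
    intro i g x
    have h6 := hδ.const_mul 2
    rw [mul_zero] at h6
    refine squeeze_zero' (Eventually.of_forall fun _ => frac_nonneg _) ?_ h6
    filter_upwards [hT ⟨i, g⟩, hE {x, α i g⁻¹ x}] with p hg hx
    exact h4 p i g x hg (hx (by simp)) (hx (by simp))
  have hM1 : ∀ i (a : G i) (g : CoprodI G),
      AE 𝓕 (fun p z => ext (ψ p) (CoprodI.of a * g) z = ψ p i a (ext (ψ p) g z)) := by
    intro i a g
    obtain ⟨b, w, hw⟩ := ext_of_mul (i := i) g
    refine ((hM0 i a b).comp (fun p => extW (ψ p) w)).mono ?_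
    intro p z hz
    obtain ⟨h7, h8⟩ := hw (ψ p) (h1 p)
    rw [h7, h8]
    exact hz
  have hM : ∀ g h : CoprodI G,
      AE 𝓕 (fun p z => ext (ψ p) (g * h) z = ext (ψ p) g (ext (ψ p) h z)) := by
    intro g h
    induction g using CoprodI.induction_left with
    | one => exact AE.of_forall (fun p z => by simp [ext_one])
    | @mul i a g ih =>
      refine ((ih.and (hM1 i a (g * h))).and
        ((hM1 i a g).comp (fun p => ext (ψ p) h))).mono ?_
      rintro p z ⟨⟨ha, hb⟩, hc⟩
      rw [mul_assoc, hb, ha, hc]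
  have hL : ∀ (g : CoprodI G) (x : X),
      AE 𝓕 (fun p z => lam p (ext (ψ p) g z) x = lam p z (CoprodI.lift α g⁻¹ x)) := by
    intro g
    induction g using CoprodI.induction_left with
    | one => exact fun x => AE.of_forall (fun p z => by simp [ext_one])
    | @mul i a g ih =>
      intro x
      refine (((ih (α i a⁻¹ x)).and (hM1 i a g)).and
        ((hL0 i a x).comp (fun p => ext (ψ p) g))).mono ?_
      rintro p z ⟨⟨ha, hb⟩, hc⟩
      rw [hb, hc, ha, mul_inv_rev, map_mul, ← map_inv, CoprodI.lift_of]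
      rfl
  intro F E ε hε
  have hA := AE.finset F (fun g => AE.finset E (fun x => hL g x))
  have hB : ∀ᶠ p : P in 𝓕, ∀ g ∈ F, ∀ h ∈ F,
      frac (fun z => ¬ ext (ψ p) (g * h) z = ext (ψ p) g (ext (ψ p) h z)) < ε := by
    rw [eventually_all_finset]
    intro g _
    rw [eventually_all_finset]
    intro h _
    exact (hM g h).eventually (gt_mem_nhds hε)
  obtain ⟨p, ⟨hp1, hp2⟩, hp3⟩ := (((hA.eventually (gt_mem_nhds hε)).and hB).and (hE E)).exists
  refine ⟨Fin (n p + 1), inferInstance, ext (ψ p), ext_one _, ?_, Fin (N p), inferInstance,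
    Finset.univ.filter (fun z => ∀ g ∈ F, ∀ x ∈ E,
      lam p (ext (ψ p) g z) x = lam p z (CoprodI.lift α g⁻¹ x)),
    fun s => ⟨fun x => lam p s x, fun x y hxy =>
      Subtype.ext (h2 p s (hp3 x.2) (hp3 y.2) hxy)⟩, ?_, ?_⟩
  · intro g hg h hh
    rw [hamming_eq_frac]
    exact hp2 g hg h hh
  · exact good_of_frac _ _ hp1
  · intro s g hg x _ _
    exact (Finset.mem_filter.mp s.2).2 g hg x x.2

end Pool.Agent.H499Z.SoficAct
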